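import Pool.Agent.Run7.h167.NEG.ZBc

/-!
# Piece ZB: mixing cost of the localized tuples
-/

set_option autoImplicit false

namespace Run7.h167.NEG.ZB

open Finset Module Classical Run7.h35.NEG

section

variable {T : Tower} {J : ℕ} {c : ℕ → Fin (2 ^ T.a) → Fin J → ℝ} {Lo r Hi : ℕ → ℕ} {B δ d : ℝ}

namespace Hyp

theorem GM_sub (s : ℕ) (M M' : Fin (2 ^ T.a) → Fin J → ℝ) (b : Fin (T.n s)) (j : Fin J) :
    T.GM s (fun ν j => M ν j - M' ν j) b j = T.GM s M b j - T.GM s M' b j := by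
  unfold Tower.GM
  rw [← sum_sub_distrib]
  exact sum_congr rfl fun ν _ => by ring

/-- the noise bound -/
theorem noise (h : Hyp T c Lo r Hi B δ d) (y : (s : ℕ) → Fin (T.n s) → Fin J → ℝ) {i s : ℕ}
    (hi : i < T.top) (hs' : s ≤ T.top) :
    hs (yZ T y c Lo Hi i s) ≤ 4 * hs (rowmap (Qf T c Lo i) (y s)) +
      4 * (if s ≤ i then hs (rowmap (Qf T c Lo i) (T.GM s (ms T c Lo s))) else 0) +
      4 * (if i + 1 ≤ s then hs (rowmap (Qf T c Lo i) (T.GM s (c s))) else 0) +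
      32 * (T.K : ℝ) ^ 2 * EE T * (d * J) := by
  have hE := h.EE1
  have hK := h.K1'
  have hd : 0 ≤ d * (J : ℝ) := mul_nonneg h.d0.le h.J0
  have hK2 : (1 : ℝ) ≤ (T.K : ℝ) ^ 2 := one_le_pow₀ hK
  have hEd : 0 ≤ EE T * (d * J) := by positivity
  have hsm : 0 ≤ 32 * (T.K : ℝ) ^ 2 * EE T * (d * J) := by positivity
  have hy0 := hs_nonneg (rowmap (Qf T c Lo i) (y s))
  rcases lt_trichotomy s i with h1 | h1 | h1
  · -- s < i
    rw [if_pos h1.le, if_neg (by omega : ¬ i + 1 ≤ s)]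
    have e1 : yZ T y c Lo Hi i s = fun b j => rowmap (Qf T c Lo i) (y s) b j +
        rowmap (Qf T c Lo i) (T.GM s (ms T c Lo s)) b j := by
      funext b j
      unfold yZ
      rw [if_pos h1, rowmap_add, h.low h1 hi]
    rw [e1]
    refine (hs_add_le _ _).trans ?_
    have := hs_nonneg (rowmap (Qf T c Lo i) (T.GM s (ms T c Lo s)))
    linarith
  · -- s = i
    subst h1
    rw [if_pos le_rfl, if_neg (by omega : ¬ s + 1 ≤ s)]
    have e1 : yZ T y c Lo Hi s s = fun b j => rowmap (Qf T c Lo s) (y s) b j +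
        (rowmap (Qf T c Lo s) (T.GM s (ms T c Lo s)) b j +
          (rowmap (Qf T c Lo s) (T.GM s (bf T c Lo Hi s s)) b j -
            rowmap (proj (Vf T c Lo s)) (T.GM s (Ub T c Lo Hi s)) b j)) := by
      funext b j
      unfold yZ
      rw [if_neg (lt_irrefl s), if_pos rfl, rowmap_add, rowmap_GM, rowmap_GM, rowmap_GM, rowmap_GM]
      rw [← GM_sub s (rowmap (Qf T c Lo s) (bf T c Lo Hi s s))
        (rowmap (proj (Vf T c Lo s)) (Ub T c Lo Hi s)), ← GM_add, add_sub_assoc, ← GM_sub]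
      congr 2
      funext ν j
      exact h.mid_row hi ν j
    rw [e1]
    refine (hs_add_le _ _).trans ?_
    have h2 := hs_add_le (rowmap (Qf T c Lo s) (T.GM s (ms T c Lo s)))
      (fun b j => rowmap (Qf T c Lo s) (T.GM s (bf T c Lo Hi s s)) b j -
            rowmap (proj (Vf T c Lo s)) (T.GM s (Ub T c Lo Hi s)) b j)
    have h3 := hs_sub_le (rowmap (Qf T c Lo s) (T.GM s (bf T c Lo Hi s s)))
      (rowmap (proj (Vf T c Lo s)) (T.GM s (Ub T c Lo Hi s)))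
    have h4 := (h.leak_Ub hi).1
    have h5 := hs_rowmap_le (h.Q_le' hi) (T.GM s (bf T c Lo Hi s s))
    have h6 := h.GM_acc le_rfl hi.le (M := bf T c Lo Hi s s) (abs_bf s s)
    have h7 := h.hs_bf le_rfl hi
    have h8 : d * (J : ℝ) ≤ EE T * (d * J) := by nlinarith
    have h9 : 32 * (EE T * (d * J)) ≤ 32 * (T.K : ℝ) ^ 2 * EE T * (d * J) := by nlinarith
    linarith
  · rw [if_neg (by omega : ¬ s ≤ i), if_pos (by omega : i + 1 ≤ s)]
    have hc0 := hs_nonneg (rowmap (Qf T c Lo i) (T.GM s (c s)))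
    by_cases h2 : s = i + 1
    · subst h2
      have e1 : yZ T y c Lo Hi i (i + 1) = fun b j => rowmap (Qf T c Lo i) (y (i + 1)) b j +
          ((T.K : ℝ) * rowmap (Qf T c Lo i) (T.GM (i + 1) (ms T c Lo i)) b j +
            rowmap (Qf T c Lo i) (T.GM (i + 1) (c (i + 1))) b j) := by
        funext b j
        unfold yZ
        rw [if_neg (by omega : ¬ i + 1 < i), if_neg (by omega : ¬ i + 1 = i), if_pos rfl, rowmap_GM,
          rowmap_GM, GM_add]
        congr 2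
        rw [← GM_smul]
        rfl
      rw [e1]
      refine (hs_add_le _ _).trans ?_
      have h3 := hs_add_le (fun b j => (T.K : ℝ) * rowmap (Qf T c Lo i) (T.GM (i + 1) (ms T c Lo i)) b j)
        (rowmap (Qf T c Lo i) (T.GM (i + 1) (c (i + 1))))
      rw [hs_smul] at h3
      have h4 := (h.hs_Q_ms hi).1
      have h5 : (T.K : ℝ) ^ 2 * hs (rowmap (Qf T c Lo i) (T.GM (i + 1) (ms T c Lo i))) ≤
          (T.K : ℝ) ^ 2 * (8 * EE T * (d * J)) := mul_le_mul_of_nonneg_left h4 (by positivity)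
      linarith
    · have e1 : yZ T y c Lo Hi i s = fun b j => rowmap (Qf T c Lo i) (y s) b j +
          rowmap (Qf T c Lo i) (T.GM s (c s)) b j := by
        funext b j
        unfold yZ
        rw [if_neg (by omega : ¬ s < i), if_neg (by omega : ¬ s = i), if_neg h2, rowmap_GM]
      rw [e1]
      refine (hs_add_le _ _).trans ?_
      linarith

theorem k0' (h : Hyp T c Lo r Hi B δ d) (s : ℕ) : (0 : ℝ) < T.k s := by exact_mod_cast h.k1 s

/-- the content bound -/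
theorem cont (h : Hyp T c Lo r Hi B δ d) {i s : ℕ} (hi : i < T.top) (hs' : s ≤ T.top) :
    hs (T.above i (cZ T c Lo Hi i) s) + rho (T.above i (cZ T c Lo Hi i) s) ^ 2 / (T.k s : ℝ) ≤
      2 * (T.K : ℝ) ^ 2 * (if i + 2 ≤ s then hs (rowmap (Qf T c Lo i) (c (s - 1))) else 0) +
      12 * (T.K : ℝ) ^ 4 * EE T * (d * J) := by
  have hE := h.EE1
  have hK := h.K1'
  have hL := h.LL0
  have hJ := h.J0
  have hd : 0 ≤ d * (J : ℝ) := mul_nonneg h.d0.le h.J0
  have hK2 : (1 : ℝ) ≤ (T.K : ℝ) ^ 2 := one_le_pow₀ hK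
  have hK4 : (T.K : ℝ) ^ 4 = (T.K : ℝ) ^ 2 * (T.K : ℝ) ^ 2 := by ring
  have hEd : 0 ≤ EE T * (d * J) := by positivity
  have hdE : d * (J : ℝ) ≤ EE T * (d * J) := by nlinarith
  have hKK : (T.K : ℝ) ^ 2 * (EE T * (d * J)) ≤ (T.K : ℝ) ^ 4 * (EE T * (d * J)) := by
    rw [hK4]
    refine mul_le_mul_of_nonneg_right ?_ hEd
    nlinarith
  have hKd : (T.K : ℝ) ^ 2 * (d * J) ≤ (T.K : ℝ) ^ 4 * (EE T * (d * J)) := by
    refine le_trans ?_ hKK
    exact mul_le_mul_of_nonneg_left hdE (by positivity)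
  have hdK : d * (J : ℝ) ≤ (T.K : ℝ) ^ 4 * (EE T * (d * J)) := by
    refine le_trans ?_ hKd
    nlinarith
  have hsm : 0 ≤ (T.K : ℝ) ^ 4 * (EE T * (d * J)) := by positivity
  by_cases h1 : s ≤ i
  · have e1 : T.above i (cZ T c Lo Hi i) s = fun _ _ => 0 := by
      funext ν j
      unfold Tower.above
      rw [if_pos h1]
    rw [e1, if_neg (by omega)]
    have e2 : hs (fun (_ : Fin (2 ^ T.a)) (_ : Fin J) => (0 : ℝ)) = 0 := by simp [hs]
    have e3 : rho (fun (_ : Fin (2 ^ T.a)) (_ : Fin J) => (0 : ℝ)) = 0 := by simp [rho]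
    rw [e2, e3]
    simp only [ne_eq, OfNat.ofNat_ne_zero, not_false_eq_true, zero_pow, zero_div, add_zero, mul_zero, zero_add]
    linarith
  by_cases h2 : s = i + 1
  · subst h2
    have hk := h.k0' (i + 1)
    have e1 : T.above i (cZ T c Lo Hi i) (i + 1) = fun ν j => (T.K : ℝ) *
        (rowmap (Qf T c Lo i) (bf T c Lo Hi i i) ν j -
        rowmap (proj (Vf T c Lo i)) (Ub T c Lo Hi i) ν j) := by
      funext ν j
      unfold Tower.above cZ
      rw [if_neg h1, if_neg (by omega : ¬ i + 1 < i), if_neg (by omega : ¬ i + 1 = i), if_pos rfl,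
        h.cont_row hi]
    rw [e1, if_neg (by omega : ¬ i + 2 ≤ i + 1), hs_smul, rho_smul_sq]
    have a1 := hs_sub_le (rowmap (Qf T c Lo i) (bf T c Lo Hi i i))
      (rowmap (proj (Vf T c Lo i)) (Ub T c Lo Hi i))
    have a2 := (hs_rowmap_le (h.Q_le' hi) (bf T c Lo Hi i i)).trans (h.hs_bf le_rfl hi)
    have a3 := (h.leak_Ub hi).2
    have a4 := rho_sub_sq_le (rowmap (Qf T c Lo i) (bf T c Lo Hi i i))
      (rowmap (proj (Vf T c Lo i)) (Ub T c Lo Hi i))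
    have a5 := h.rho_bf hi
    have a6 := h.rho_Ub hi
    have a7 := h.gap hi
    have b1 : hs (fun b j => rowmap (Qf T c Lo i) (bf T c Lo Hi i i) b j -
        rowmap (proj (Vf T c Lo i)) (Ub T c Lo Hi i) b j) ≤ 4 * (EE T * (d * J)) := by linarith
    have b2 : (T.K : ℝ) ^ 2 * rho (fun b j => rowmap (Qf T c Lo i) (bf T c Lo Hi i i) b j -
        rowmap (proj (Vf T c Lo i)) (Ub T c Lo Hi i) b j) ^ 2 ≤
        (3 * ((T.K : ℝ) ^ 4 * (EE T * (d * J)))) * T.k (i + 1) := by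
      have c1 : (Lo i : ℝ) ^ 2 * (J * (LL T B * (T.k i : ℝ) ^ 2)) =
          J * (LL T B * ((T.k i : ℝ) ^ 2 * (Lo i : ℝ) ^ 2)) := by ring
      have c2 : (T.K : ℝ) ^ 2 * (2 * ((Lo i : ℝ) ^ 2 * (J * (LL T B * (T.k i : ℝ) ^ 2)))) ≤
          (d * J) * T.k (i + 1) := by
        rw [c1]
        have c3 := mul_le_mul_of_nonneg_left a7 hJ
        have c4 : 0 ≤ J * (LL T B * ((T.k i : ℝ) ^ 2 * (Lo i : ℝ) ^ 2)) := by positivity
        have c5 : (T.K : ℝ) ^ 2 * (2 * (J * (LL T B * ((T.k i : ℝ) ^ 2 * (Lo i : ℝ) ^ 2)))) ≤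
            J * (4 * (T.K : ℝ) ^ 4 * (LL T B * ((T.k i : ℝ) ^ 2 * (Lo i : ℝ) ^ 2))) := by
          rw [hK4]
          have c6 : (T.K : ℝ) ^ 2 * 2 ≤ 4 * ((T.K : ℝ) ^ 2 * (T.K : ℝ) ^ 2) := by nlinarith
          have c7 := mul_le_mul_of_nonneg_right c6 c4
          linarith
        refine c5.trans (c3.trans (le_of_eq (by ring)))
      have c8 := mul_le_mul_of_nonneg_left a4 (by positivity : (0:ℝ) ≤ (T.K : ℝ) ^ 2)
      refine c8.trans ?_
      have c9 : (T.K : ℝ) ^ 2 * (2 * rho (rowmap (Qf T c Lo i) (bf T c Lo Hi i i)) ^ 2) ≤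
          (T.K : ℝ) ^ 2 * (2 * (T.k (i + 1) * (EE T * (d * J)))) := by gcongr
      have c10 : (T.K : ℝ) ^ 2 * (2 * rho (rowmap (proj (Vf T c Lo i)) (Ub T c Lo Hi i)) ^ 2) ≤
          (T.K : ℝ) ^ 2 * (2 * ((Lo i : ℝ) ^ 2 * (J * (LL T B * (T.k i : ℝ) ^ 2)))) := by gcongr
      have c11 : (T.K : ℝ) ^ 2 * (2 * (T.k (i + 1) * (EE T * (d * J)))) =
          (2 * ((T.K : ℝ) ^ 2 * (EE T * (d * J)))) * T.k (i + 1) := by ring
      have c12 : (2 * ((T.K : ℝ) ^ 2 * (EE T * (d * J)))) * T.k (i + 1) ≤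
          (2 * ((T.K : ℝ) ^ 4 * (EE T * (d * J)))) * T.k (i + 1) := by gcongr
      have c13 : (d * J) * T.k (i + 1) ≤ ((T.K : ℝ) ^ 4 * (EE T * (d * J))) * T.k (i + 1) :=
        mul_le_mul_of_nonneg_right hdK hk.le
      linarith
    have b3 : (T.K : ℝ) ^ 2 * rho (fun b j => rowmap (Qf T c Lo i) (bf T c Lo Hi i i) b j -
        rowmap (proj (Vf T c Lo i)) (Ub T c Lo Hi i) b j) ^ 2 / (T.k (i + 1) : ℝ) ≤
        3 * ((T.K : ℝ) ^ 4 * (EE T * (d * J))) := by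
      rw [div_le_iff₀ hk]; exact b2
    have b4 := mul_le_mul_of_nonneg_left b1 (by positivity : (0:ℝ) ≤ (T.K : ℝ) ^ 2)
    have b5 : (T.K : ℝ) ^ 2 * (4 * (EE T * (d * J))) ≤ 4 * ((T.K : ℝ) ^ 4 * (EE T * (d * J))) := by linarith
    linarith
  have hs1 : s - 1 < T.top := by omega
  have hss : s - 1 + 1 = s := by omega
  have hk := h.k0' s
  have hgap := h.gap hs1
  rw [hss] at hgap
  have hq0 := hs_nonneg (rowmap (Qf T c Lo i) (c (s - 1)))
  rw [if_pos (by omega : i + 2 ≤ s)]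
  have hrc := h.rho_c (i := i) (s := s - 1) (by omega) hs1
  -- `4 K⁴ Lo² J L k² ≤ d J k_s`
  have hg2 : 4 * (T.K : ℝ) ^ 4 * ((Lo (s - 1) : ℝ) ^ 2 * (J * (LL T B * (T.k (s - 1) : ℝ) ^ 2))) ≤
      (d * J) * T.k s := by
    have c3 := mul_le_mul_of_nonneg_left hgap hJ
    refine le_trans (le_of_eq (by ring)) (c3.trans (le_of_eq (by ring)))
  have hX0 : 0 ≤ (Lo (s - 1) : ℝ) ^ 2 * (J * (LL T B * (T.k (s - 1) : ℝ) ^ 2)) := by positivity
  have hK24 : (T.K : ℝ) ^ 2 ≤ (T.K : ℝ) ^ 4 := by rw [hK4]; nlinarith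
  by_cases h3 : s = i + 2
  · have hi1 : i + 1 < T.top := by omega
    subst h3
    have e0 : i + 2 - 1 = i + 1 := by omega
    rw [e0] at hrc hg2 hX0 hq0 ⊢
    have e1 : T.above i (cZ T c Lo Hi i) (i + 2) = fun ν j => (T.K : ℝ) *
        ((T.K : ℝ) * rowmap (Qf T c Lo i) (ms T c Lo i) ν j + rowmap (Qf T c Lo i) (c (i + 1)) ν j) := by
      funext ν j
      unfold Tower.above cZ
      rw [if_neg h1, if_neg (by omega : ¬ i + 2 < i), if_neg (by omega : ¬ i + 2 = i), if_neg h2,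
        if_pos rfl]
      rfl
    rw [e1, hs_smul, rho_smul_sq]
    have a1 := hs_add_le (fun ν j => (T.K : ℝ) * rowmap (Qf T c Lo i) (ms T c Lo i) ν j)
      (rowmap (Qf T c Lo i) (c (i + 1)))
    rw [hs_smul] at a1
    have a2 := (h.hs_Q_ms hi).2
    have a4 := rho_add_sq_le (fun ν j => (T.K : ℝ) * rowmap (Qf T c Lo i) (ms T c Lo i) ν j)
      (rowmap (Qf T c Lo i) (c (i + 1)))
    rw [rho_smul_sq] at a4
    have a5 := h.rho_ms hi1
    have b1 : (T.K : ℝ) ^ 2 * hs (fun b j => (T.K : ℝ) * rowmap (Qf T c Lo i) (ms T c Lo i) b j +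
        rowmap (Qf T c Lo i) (c (i + 1)) b j) ≤
        8 * ((T.K : ℝ) ^ 4 * (EE T * (d * J))) + 2 * (T.K : ℝ) ^ 2 * hs (rowmap (Qf T c Lo i) (c (i + 1))) := by
      have c1 := mul_le_mul_of_nonneg_left a1 (by positivity : (0:ℝ) ≤ (T.K : ℝ) ^ 2)
      have c2 := mul_le_mul_of_nonneg_left a2 (by positivity : (0:ℝ) ≤ 2 * (T.K : ℝ) ^ 4)
      have c3 : (T.K : ℝ) ^ 2 * (2 * ((T.K : ℝ) ^ 2 * hs (rowmap (Qf T c Lo i) (ms T c Lo i))) +
          2 * hs (rowmap (Qf T c Lo i) (c (i + 1)))) =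
          2 * (T.K : ℝ) ^ 4 * hs (rowmap (Qf T c Lo i) (ms T c Lo i)) +
          2 * (T.K : ℝ) ^ 2 * hs (rowmap (Qf T c Lo i) (c (i + 1))) := by ring
      linarith
    have b2 : (T.K : ℝ) ^ 2 * rho (fun b j => (T.K : ℝ) * rowmap (Qf T c Lo i) (ms T c Lo i) b j +
        rowmap (Qf T c Lo i) (c (i + 1)) b j) ^ 2 / (T.k (i + 2) : ℝ) ≤ d * J := by
      rw [div_le_iff₀ hk]
      refine le_trans ?_ hg2
      have c1 := mul_le_mul_of_nonneg_left a4 (by positivity : (0:ℝ) ≤ (T.K : ℝ) ^ 2)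
      refine c1.trans ?_
      set X := (Lo (i + 1) : ℝ) ^ 2 * (J * (LL T B * (T.k (i + 1) : ℝ) ^ 2)) with hX
      have c2 : (T.K : ℝ) ^ 2 * (2 * ((T.K : ℝ) ^ 2 * rho (rowmap (Qf T c Lo i) (ms T c Lo i)) ^ 2) +
          2 * rho (rowmap (Qf T c Lo i) (c (i + 1))) ^ 2) ≤
          (T.K : ℝ) ^ 2 * (2 * ((T.K : ℝ) ^ 2 * X) + 2 * X) := by gcongr
      refine c2.trans ?_
      have c3 : (T.K : ℝ) ^ 2 * (2 * ((T.K : ℝ) ^ 2 * X) + 2 * X) =
          2 * (T.K : ℝ) ^ 4 * X + 2 * (T.K : ℝ) ^ 2 * X := by ring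
      have c4 := mul_le_mul_of_nonneg_right hK24 hX0
      linarith
    linarith
  · have e1 : T.above i (cZ T c Lo Hi i) s = fun ν j => (T.K : ℝ) * rowmap (Qf T c Lo i) (c (s - 1)) ν j := by
      funext ν j
      unfold Tower.above cZ
      rw [if_neg h1, if_neg (by omega : ¬ s < i), if_neg (by omega : ¬ s = i), if_neg h2,
        if_neg h3]
    rw [e1, hs_smul, rho_smul_sq]
    have b2 : (T.K : ℝ) ^ 2 * rho (rowmap (Qf T c Lo i) (c (s - 1))) ^ 2 / (T.k s : ℝ) ≤ d * J := by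
      rw [div_le_iff₀ hk]
      refine le_trans ?_ hg2
      have c1 := mul_le_mul_of_nonneg_left hrc (by positivity : (0:ℝ) ≤ (T.K : ℝ) ^ 2)
      refine c1.trans ?_
      have c4 := mul_le_mul_of_nonneg_right hK24 hX0
      have c5 : 0 ≤ (T.K : ℝ) ^ 4 * ((Lo (s - 1) : ℝ) ^ 2 * (J * (LL T B * (T.k (s - 1) : ℝ) ^ 2))) := by
        positivity
      linarith
    have b3 : 0 ≤ (T.K : ℝ) ^ 2 * hs (rowmap (Qf T c Lo i) (c (s - 1))) := by positivity
    linarith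

/-- sum over the levels of the noise terms -/
theorem sum_y (h : Hyp T c Lo r Hi B δ d) (y : (s : ℕ) → Fin (T.n s) → Fin J → ℝ) :
    ∑ i ∈ range T.top, ∑ s ∈ range (T.top + 1), hs (rowmap (Qf T c Lo i) (y s)) ≤
      ∑ s ∈ range (T.top + 1), hs (y s) := by
  rw [sum_comm]
  exact sum_le_sum fun s _ => h.sum_hs_Q (y s)

theorem sum_m (h : Hyp T c Lo r Hi B δ d) :
    ∑ i ∈ range T.top, ∑ s ∈ range (T.top + 1),
      (if s ≤ i then hs (rowmap (Qf T c Lo i) (T.GM s (ms T c Lo s))) else 0) ≤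
      4 / (T.K : ℝ) ^ 2 * (∑ i ∈ range (T.top + 1), usq T c Lo i) * J +
      4 * (∑ s ∈ range (T.top + 1), hs (c s)) + T.top * (d * J) := by
  have hK : (1 : ℝ) ≤ T.K := h.K1'
  have hK2 : (1 : ℝ) ≤ (T.K : ℝ) ^ 2 := one_le_pow₀ hK
  have hJ := h.J0
  have hd : 0 ≤ d * (J : ℝ) := mul_nonneg h.d0.le h.J0
  have hu : ∀ i, 0 ≤ usq T c Lo i := fun i => by unfold usq; positivity
  rw [sum_comm, sum_range_succ]
  have h1 : ∑ i ∈ range T.top, (if T.top ≤ i then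
      hs (rowmap (Qf T c Lo i) (T.GM T.top (ms T c Lo T.top))) else 0) = 0 := by
    refine sum_eq_zero fun i hi => ?_
    rw [mem_range] at hi
    rw [if_neg (by omega)]
  rw [h1, add_zero]
  have h2 : ∀ s ∈ range T.top, ∑ i ∈ range T.top,
      (if s ≤ i then hs (rowmap (Qf T c Lo i) (T.GM s (ms T c Lo s))) else 0) ≤
      4 / (T.K : ℝ) ^ 2 * (usq T c Lo (s + 1) * J) + 4 * hs (c (s + 1)) + d * J := by
    intro s hs'
    rw [mem_range] at hs'
    have h3 : ∑ i ∈ range T.top,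
        (if s ≤ i then hs (rowmap (Qf T c Lo i) (T.GM s (ms T c Lo s))) else 0) ≤
        ∑ i ∈ range T.top, hs (rowmap (Qf T c Lo i) (T.GM s (ms T c Lo s))) := by
      refine sum_le_sum fun i _ => ?_
      split_ifs
      · exact le_rfl
      · exact hs_nonneg _
    have h4 := h.sum_hs_Q (T.GM s (ms T c Lo s))
    have h5 := h.GM_acc le_rfl hs'.le (M := ms T c Lo s) (abs_ms s)
    have h6 := h.hs_ms s
    have h7 : 2 * (2 / (T.K : ℝ) ^ 2 * (usq T c Lo (s + 1) * J + hs (c (s + 1)))) =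
        4 / (T.K : ℝ) ^ 2 * (usq T c Lo (s + 1) * J) + 4 / (T.K : ℝ) ^ 2 * hs (c (s + 1)) := by ring
    have h8 : 4 / (T.K : ℝ) ^ 2 * hs (c (s + 1)) ≤ 4 * hs (c (s + 1)) := by
      refine mul_le_mul_of_nonneg_right ?_ (hs_nonneg _)
      rw [div_le_iff₀ (by positivity)]
      linarith
    linarith
  refine (sum_le_sum h2).trans ?_
  rw [sum_add_distrib, sum_add_distrib, sum_const, card_range, nsmul_eq_mul, ← mul_sum, ← mul_sum, ← sum_mul]
  have h3 : ∑ s ∈ range T.top, usq T c Lo (s + 1) ≤ ∑ i ∈ range (T.top + 1), usq T c Lo i := by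
    rw [sum_range_succ']
    linarith [hu 0]
  have h4 : ∑ s ∈ range T.top, hs (c (s + 1)) ≤ ∑ s ∈ range (T.top + 1), hs (c s) := by
    rw [sum_range_succ' (fun s => hs (c s))]
    linarith [hs_nonneg (c 0)]
  have h5 : 4 / (T.K : ℝ) ^ 2 * ((∑ s ∈ range T.top, usq T c Lo (s + 1)) * J) ≤
      4 / (T.K : ℝ) ^ 2 * ((∑ i ∈ range (T.top + 1), usq T c Lo i) * J) := by gcongr
  linarith

theorem sum_c (h : Hyp T c Lo r Hi B δ d) :
    ∑ i ∈ range T.top, ∑ s ∈ range (T.top + 1),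
      (if i + 1 ≤ s then hs (rowmap (Qf T c Lo i) (T.GM s (c s))) else 0) ≤
      2 * (∑ s ∈ range (T.top + 1), hs (c s)) + (T.top + 1) * (d * J) := by
  rw [sum_comm]
  have h2 : ∀ s ∈ range (T.top + 1), ∑ i ∈ range T.top,
      (if i + 1 ≤ s then hs (rowmap (Qf T c Lo i) (T.GM s (c s))) else 0) ≤ 2 * hs (c s) + d * J := by
    intro s hs'
    rw [mem_range] at hs'
    have h3 : ∑ i ∈ range T.top,
        (if i + 1 ≤ s then hs (rowmap (Qf T c Lo i) (T.GM s (c s))) else 0) ≤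
        ∑ i ∈ range T.top, hs (rowmap (Qf T c Lo i) (T.GM s (c s))) := by
      refine sum_le_sum fun i _ => ?_
      split_ifs
      · exact le_rfl
      · exact hs_nonneg _
    have h4 := h.sum_hs_Q (T.GM s (c s))
    have h5 := h.GM_c (s := s) (by omega)
    linarith
  refine (sum_le_sum h2).trans (le_of_eq ?_)
  rw [sum_add_distrib, sum_const, card_range, nsmul_eq_mul, ← mul_sum]
  push_cast
  ring

theorem sum_cc (h : Hyp T c Lo r Hi B δ d) :
    ∑ i ∈ range T.top, ∑ s ∈ range (T.top + 1),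
      (if i + 2 ≤ s then hs (rowmap (Qf T c Lo i) (c (s - 1))) else 0) ≤
      ∑ s ∈ range (T.top + 1), hs (c s) := by
  rw [sum_comm, sum_range_succ']
  have h0 : ∑ i ∈ range T.top, (if i + 2 ≤ 0 then hs (rowmap (Qf T c Lo i) (c (0 - 1))) else 0) = 0 := by
    refine sum_eq_zero fun i _ => ?_
    rw [if_neg (by omega)]
  rw [h0, add_zero, sum_range_succ]
  have h2 : ∀ s ∈ range T.top, ∑ i ∈ range T.top,
      (if i + 2 ≤ s + 1 then hs (rowmap (Qf T c Lo i) (c (s + 1 - 1))) else 0) ≤ hs (c s) := by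
    intro s hs'
    have h3 : ∑ i ∈ range T.top,
        (if i + 2 ≤ s + 1 then hs (rowmap (Qf T c Lo i) (c (s + 1 - 1))) else 0) ≤
        ∑ i ∈ range T.top, hs (rowmap (Qf T c Lo i) (c s)) := by
      refine sum_le_sum fun i _ => ?_
      split_ifs
      · exact le_rfl
      · exact hs_nonneg _
    exact h3.trans (h.sum_hs_Q (c s))
  have := sum_le_sum h2
  have h5 := hs_nonneg (c T.top)
  linarith

/-- the whole bound -/
theorem total (h : Hyp T c Lo r Hi B δ d) (y : (s : ℕ) → Fin (T.n s) → Fin J → ℝ)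
    (hd : 64 * (T.K : ℝ) ^ 4 * EE T * d * ((T.top : ℝ) + 1) ^ 2 ≤ 1)
    (hcost : ∀ j, T.cost (fun s b => y s b j) (fun s ν => c s ν j) ≤ 3) :
    ∑ i ∈ range T.top, T.mc (yZ T y c Lo Hi i) (T.above i (cZ T c Lo Hi i)) ≤
      (200 * (T.K : ℝ) ^ 2 + 200 / (T.K : ℝ) ^ 2 * ∑ i ∈ range (T.top + 1), usq T c Lo i) * J := by
  have hK : (1 : ℝ) ≤ T.K := h.K1'
  have hK2 : (1 : ℝ) ≤ (T.K : ℝ) ^ 2 := one_le_pow₀ hK
  have hK4 : (T.K : ℝ) ^ 4 = (T.K : ℝ) ^ 2 * (T.K : ℝ) ^ 2 := by ring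
  have hE := h.EE1
  have hJ := h.J0
  have hd0 := h.d0
  have hu : ∀ i, 0 ≤ usq T c Lo i := fun i => by unfold usq; positivity
  -- the sizes of `y` and `c`
  have hyc : ∑ s ∈ range (T.top + 1), hs (y s) + ∑ s ∈ range (T.top + 1), hs (c s) ≤ 3 * J := by
    have h1 : ∑ s ∈ range (T.top + 1), hs (y s) + ∑ s ∈ range (T.top + 1), hs (c s) =
        ∑ j, ∑ s ∈ range (T.top + 1), (∑ b, y s b j ^ 2 + ∑ ν, c s ν j ^ 2) := by
      rw [← sum_add_distrib, sum_comm]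
      refine sum_congr rfl fun s _ => ?_
      rw [sum_add_distrib]
      unfold hs
      rw [sum_comm, sum_comm (s := (univ : Finset (Fin (2 ^ T.a))))]
    rw [h1]
    calc ∑ j, ∑ s ∈ range (T.top + 1), (∑ b, y s b j ^ 2 + ∑ ν, c s ν j ^ 2)
        ≤ ∑ j, T.cost (fun s b => y s b j) (fun s ν => c s ν j) := by
          unfold Tower.cost
          refine sum_le_sum fun j _ => sum_le_sum fun s _ => ?_
          have : 0 ≤ (∑ ν, |c s ν j|) ^ 2 / (T.k s : ℝ) := by positivity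
          linarith
      _ ≤ ∑ _j : Fin J, (3 : ℝ) := sum_le_sum fun j _ => hcost j
      _ = _ := by simp [mul_comm]
  have hy0 : 0 ≤ ∑ s ∈ range (T.top + 1), hs (y s) := sum_nonneg fun s _ => hs_nonneg _
  have hc0 : 0 ≤ ∑ s ∈ range (T.top + 1), hs (c s) := sum_nonneg fun s _ => hs_nonneg _
  -- the terms
  have hterm : ∑ i ∈ range T.top, T.mc (yZ T y c Lo Hi i) (T.above i (cZ T c Lo Hi i)) ≤
      ∑ i ∈ range T.top, ∑ s ∈ range (T.top + 1),
        (4 * hs (rowmap (Qf T c Lo i) (y s)) +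
          4 * (if s ≤ i then hs (rowmap (Qf T c Lo i) (T.GM s (ms T c Lo s))) else 0) +
          4 * (if i + 1 ≤ s then hs (rowmap (Qf T c Lo i) (T.GM s (c s))) else 0) +
          2 * (T.K : ℝ) ^ 2 * (if i + 2 ≤ s then hs (rowmap (Qf T c Lo i) (c (s - 1))) else 0) +
          44 * (T.K : ℝ) ^ 4 * EE T * (d * J)) := by
    refine sum_le_sum fun i hi => ?_
    rw [mem_range] at hi
    rw [mc_eq]
    refine sum_le_sum fun s hs' => ?_
    rw [mem_range] at hs'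
    have h1 := h.noise y hi (s := s) (by omega)
    have h2 := h.cont hi (s := s) (by omega)
    have h3 : 32 * (T.K : ℝ) ^ 2 * EE T * (d * J) ≤ 32 * (T.K : ℝ) ^ 4 * EE T * (d * J) := by
      rw [hK4]
      have : 0 ≤ (T.K : ℝ) ^ 2 * EE T * (d * J) := by positivity
      nlinarith
    linarith
  refine hterm.trans ?_
  simp only [sum_add_distrib, ← mul_sum, sum_const, card_range, nsmul_eq_mul]
  have s1 := h.sum_y y
  have s2 := h.sum_m
  have s3 := h.sum_c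
  have s4 := mul_le_mul_of_nonneg_left h.sum_cc (by positivity : (0:ℝ) ≤ 2 * (T.K : ℝ) ^ 2)
  have htop : (0 : ℝ) ≤ T.top := Nat.cast_nonneg _
  -- the small terms
  have t1 : (T.top : ℝ) * (((T.top + 1 : ℕ) : ℝ) * (44 * (T.K : ℝ) ^ 4 * EE T * (d * J))) ≤ J := by
    push_cast
    have e1 : (T.top : ℝ) * (((T.top : ℝ) + 1) * (44 * (T.K : ℝ) ^ 4 * EE T * (d * J))) ≤
        (64 * (T.K : ℝ) ^ 4 * EE T * d * ((T.top : ℝ) + 1) ^ 2) * J := by
      have e2 : 0 ≤ (T.K : ℝ) ^ 4 * EE T * (d * J) := by positivity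
      have e3 : (T.top : ℝ) * ((T.top : ℝ) + 1) * 44 ≤ 64 * ((T.top : ℝ) + 1) ^ 2 := by nlinarith
      have := mul_le_mul_of_nonneg_right e3 e2
      linarith
    refine e1.trans ?_
    nlinarith
  have t2 : ((T.top : ℝ) + 1) * (d * J) ≤ J := by
    have e1 : ((T.top : ℝ) + 1) * d ≤ 1 := by
      refine le_trans ?_ hd
      have e2 : 1 ≤ 64 * (T.K : ℝ) ^ 4 * EE T := by
        have : (1 : ℝ) ≤ (T.K : ℝ) ^ 4 := one_le_pow₀ hK
        nlinarith
      have e3 : 0 ≤ d * ((T.top : ℝ) + 1) := by positivity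
      have e4 : d * ((T.top : ℝ) + 1) ≤ d * ((T.top : ℝ) + 1) ^ 2 := by nlinarith
      have e5 : 0 ≤ d * ((T.top : ℝ) + 1) ^ 2 := by positivity
      nlinarith
    nlinarith
  have t3 : (T.top : ℝ) * (d * J) ≤ J := by
    refine le_trans ?_ t2
    have : 0 ≤ d * (J : ℝ) := by positivity
    nlinarith
  have hus : 0 ≤ ∑ i ∈ range (T.top + 1), usq T c Lo i := sum_nonneg fun i _ => hu i
  have u1 : 16 / (T.K : ℝ) ^ 2 * (∑ i ∈ range (T.top + 1), usq T c Lo i) * J ≤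
      200 / (T.K : ℝ) ^ 2 * (∑ i ∈ range (T.top + 1), usq T c Lo i) * J := by
    have : 16 / (T.K : ℝ) ^ 2 ≤ 200 / (T.K : ℝ) ^ 2 := by gcongr; norm_num
    gcongr
  have v1 : (J : ℝ) ≤ (T.K : ℝ) ^ 2 * J := by nlinarith
  have v2 : ∑ s ∈ range (T.top + 1), hs (c s) ≤ 3 * J := by linarith
  have v3 : 2 * (T.K : ℝ) ^ 2 * ∑ s ∈ range (T.top + 1), hs (c s) ≤ 6 * ((T.K : ℝ) ^ 2 * J) := by nlinarith
  have w1 : (200 * (T.K : ℝ) ^ 2 + 200 / (T.K : ℝ) ^ 2 * ∑ i ∈ range (T.top + 1), usq T c Lo i) * J =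
      200 * ((T.K : ℝ) ^ 2 * J) + 200 / (T.K : ℝ) ^ 2 * (∑ i ∈ range (T.top + 1), usq T c Lo i) * J := by ring
  rw [w1]
  have w2 : 4 * (4 / (T.K : ℝ) ^ 2 * (∑ i ∈ range (T.top + 1), usq T c Lo i) * J) =
      16 / (T.K : ℝ) ^ 2 * (∑ i ∈ range (T.top + 1), usq T c Lo i) * J := by ring
  linarith

end Hyp

end

theorem main : S_ZB := by
  intro K top B hK hB
  have hK' : (1 : ℝ) ≤ K := by exact_mod_cast hK
  set E : ℝ := ((top : ℝ) + 1) * (K : ℝ) ^ (2 * top) with hE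
  have hE0 : 0 < E := by positivity
  set L : ℝ := ((top : ℝ) + 1) ^ 2 * (K : ℝ) ^ (2 * top) * B ^ 2 with hL
  set d : ℝ := 1 / (64 * (K : ℝ) ^ 4 * E * ((top : ℝ) + 1) ^ 2) with hd
  have hd0 : 0 < d := by positivity
  obtain ⟨Γ, hΓ⟩ := exists_nat_ge (64 * (K : ℝ) ^ 4 * L / d)
  refine ⟨d, 1, hd0, one_pos, max Γ (top + 1), ?_⟩
  intro H₂ ε C₀ δ g T hg hε hε1 hε2 hδ hδd hTK hTt hT J y c Lo r Hi hJ hsp hwin hlk hcost
  subst hTK hTt
  have hbase := hT.base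
  have hyp : Hyp T c Lo r Hi B δ d := by
    refine
      { J1 := hJ, K1 := hK, B1 := hB, sp := hsp, win := hwin, lk := hlk, d0 := hd0, δ0 := hδ, δd := hδd,
        a1 := hT.one_le_a, topa := (le_max_right _ _).trans hbase, big := ?_,
        kmono := fun s s' h1 h2 => hT.k_mono (by omega) h1 h2, ka := hT.k_ge,
        nk := fun s hs' => (hT.n_eq s hs').symm, nk1 := fun s hs' => hT.n_le_k_succ (by omega) hs',
        GMb := ?_, eta := fun s => hT.eta_mul_le s 2 (by norm_num) }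
    · have h1 : (Γ : ℝ) ≤ T.a := by exact_mod_cast (le_max_left _ _).trans hbase
      rw [div_le_iff₀ hd0] at hΓ
      have h2 : (Γ : ℝ) * d ≤ T.a * d := mul_le_mul_of_nonneg_right h1 hd0.le
      rw [← hL]
      linarith
    · intro s hs' M
      refine (hT.hs_GM_le_col hε.le hs' M).trans ?_
      have := hs_nonneg M
      nlinarith
  refine hyp.total y ?_ hcost
  have h1 : EE T = E := rfl
  rw [h1, hd]
  refine le_of_eq ?_
  field_simp

end Run7.h167.NEG.ZB
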