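import Pool.Agent.Run7.h35.NEG.Iface3

/-!
# Piece ZB, part 1: projections, rows, counting
-/

set_option autoImplicit false

namespace Run7.h167.NEG.ZB

open Finset Module Classical Run7.h35.NEG

/-! ## nested projections -/

section qf

variable {J : ℕ}

theorem proj_proj_of_le {V W : Submodule ℝ (Fin J → ℝ)} (h : V ≤ W) (v : Fin J → ℝ) :
    proj V (proj W v) = proj V v := by
  funext j
  have key : ∀ w : Fin J → ℝ, ∑ j, proj V (proj W v) j * w j = ∑ j, proj V v j * w j := by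
    intro w
    rw [proj_symm, proj_symm, proj_of_mem (h (proj_mem V w)), ← proj_symm]
  have := key (Pi.single j 1)
  simpa [Pi.single_apply] using this

theorem Q_sq {V W : Submodule ℝ (Fin J → ℝ)} (h : V ≤ W) (v : Fin J → ℝ) :
    ∑ j, ((proj W - proj V) v j) ^ 2 = ∑ j, proj W v j ^ 2 - ∑ j, proj V v j ^ 2 := by
  have h1 : ∑ j, proj V v j * proj W v j = ∑ j, proj V v j * proj V v j := by
    rw [proj_symm V v (proj W v), proj_proj_of_le h, proj_symm V v (proj V v), proj_idem]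
  have h2 : ∀ j, ((proj W - proj V) v j) ^ 2 =
      proj W v j ^ 2 - 2 * (proj V v j * proj W v j) + proj V v j * proj V v j := by
    intro j
    rw [LinearMap.sub_apply, Pi.sub_apply]
    ring
  simp only [h2]
  rw [sum_add_distrib, sum_sub_distrib, ← mul_sum, h1]
  have h3 : ∑ j, proj V v j ^ 2 = ∑ j, proj V v j * proj V v j := sum_congr rfl fun _ _ => by ring
  rw [h3]
  ring

theorem Q_sq_le {V W : Submodule ℝ (Fin J → ℝ)} (h : V ≤ W) (v : Fin J → ℝ) :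
    ∑ j, ((proj W - proj V) v j) ^ 2 ≤ ∑ j, proj W v j ^ 2 := by
  rw [Q_sq h]
  have : 0 ≤ ∑ j, proj V v j ^ 2 := by positivity
  linarith

theorem sum_Q_sq_le (V : ℕ → Submodule ℝ (Fin J → ℝ)) (n : ℕ) (hV : ∀ i < n, V i ≤ V (i + 1))
    (v : Fin J → ℝ) :
    ∑ i ∈ range n, ∑ j, ((proj (V (i + 1)) - proj (V i)) v j) ^ 2 ≤ ∑ j, v j ^ 2 := by
  have h1 : ∑ i ∈ range n, ∑ j, ((proj (V (i + 1)) - proj (V i)) v j) ^ 2 =
      ∑ i ∈ range n, (∑ j, proj (V (i + 1)) v j ^ 2 - ∑ j, proj (V i) v j ^ 2) :=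
    sum_congr rfl fun i hi => Q_sq (hV i (mem_range.1 hi)) v
  rw [h1, sum_range_sub (fun i => ∑ j, proj (V i) v j ^ 2)]
  have h2 : 0 ≤ ∑ j, proj (V 0) v j ^ 2 := by positivity
  have h3 := proj_norm_le (V n) v
  linarith

end qf

/-! ## rows -/

section rows

variable {ι : Type} {J : ℕ}

theorem rowmap_add (P : (Fin J → ℝ) →ₗ[ℝ] (Fin J → ℝ)) (M M' : ι → Fin J → ℝ) (b : ι) (j : Fin J) :
    rowmap P (fun b j => M b j + M' b j) b j = rowmap P M b j + rowmap P M' b j := by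
  unfold rowmap
  have : (fun b j => M b j + M' b j) b = M b + M' b := rfl
  rw [this, map_add, Pi.add_apply]

theorem hs_rowmap_le [Fintype ι] {P : (Fin J → ℝ) →ₗ[ℝ] (Fin J → ℝ)}
    (hP : ∀ v : Fin J → ℝ, ∑ j, P v j ^ 2 ≤ ∑ j, v j ^ 2) (M : ι → Fin J → ℝ) :
    hs (rowmap P M) ≤ hs M := by
  unfold hs rowmap
  exact sum_le_sum fun b _ => hP (M b)

theorem hs_rowmap_le' [Fintype ι] {P P' : (Fin J → ℝ) →ₗ[ℝ] (Fin J → ℝ)}
    (hP : ∀ v : Fin J → ℝ, ∑ j, P v j ^ 2 ≤ ∑ j, P' v j ^ 2) (M : ι → Fin J → ℝ) :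
    hs (rowmap P M) ≤ hs (rowmap P' M) := by
  unfold hs rowmap
  exact sum_le_sum fun b _ => hP (M b)

theorem rho_rowmap_le' [Fintype ι] {P P' : (Fin J → ℝ) →ₗ[ℝ] (Fin J → ℝ)}
    (hP : ∀ v : Fin J → ℝ, ∑ j, P v j ^ 2 ≤ ∑ j, P' v j ^ 2) (M : ι → Fin J → ℝ) :
    rho (rowmap P M) ≤ rho (rowmap P' M) := by
  unfold rho rowmap
  exact sum_le_sum fun b _ => Real.sqrt_le_sqrt (hP (M b))

theorem hs_sub_le [Fintype ι] (M M' : ι → Fin J → ℝ) :
    hs (fun b j => M b j - M' b j) ≤ 2 * hs M + 2 * hs M' := by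
  unfold hs
  simp only [mul_sum, ← sum_add_distrib]
  refine sum_le_sum fun b _ => sum_le_sum fun j _ => ?_
  nlinarith [sq_nonneg (M b j + M' b j)]

theorem rho_neg [Fintype ι] (M : ι → Fin J → ℝ) : rho (fun b j => - M b j) = rho M := by
  unfold rho
  refine sum_congr rfl fun b _ => ?_
  simp

theorem rho_sub_sq_le [Fintype ι] (M M' : ι → Fin J → ℝ) :
    rho (fun b j => M b j - M' b j) ^ 2 ≤ 2 * rho M ^ 2 + 2 * rho M' ^ 2 := by
  have h := rho_add_le M (fun b j => - M' b j)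
  rw [rho_neg] at h
  have h1 : (fun b j => M b j - M' b j) = (fun b j => M b j + - M' b j) := by
    funext b j; ring
  rw [h1]
  have := pow_le_pow_left₀ (rho_nonneg _) h 2
  nlinarith [sq_nonneg (rho M - rho M')]

theorem rho_add_sq_le [Fintype ι] (M M' : ι → Fin J → ℝ) :
    rho (fun b j => M b j + M' b j) ^ 2 ≤ 2 * rho M ^ 2 + 2 * rho M' ^ 2 := by
  have h := rho_add_le M M'
  have := pow_le_pow_left₀ (rho_nonneg _) h 2
  nlinarith [sq_nonneg (rho M - rho M')]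

theorem hs_smul [Fintype ι] (r : ℝ) (M : ι → Fin J → ℝ) : hs (fun b j => r * M b j) = r ^ 2 * hs M := by
  simp only [hs, mul_sum, mul_pow]

theorem rho_smul_sq [Fintype ι] (r : ℝ) (M : ι → Fin J → ℝ) :
    rho (fun b j => r * M b j) ^ 2 = r ^ 2 * rho M ^ 2 := by
  have h3 : rho (fun b j => r * M b j) = |r| * rho M := by
    simp only [rho, mul_sum]
    refine sum_congr rfl fun b _ => ?_
    have : ∑ j, (r * M b j) ^ 2 = r ^ 2 * ∑ j, M b j ^ 2 := by
      simp only [mul_sum, mul_pow]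
    rw [this, Real.sqrt_mul (sq_nonneg r), Real.sqrt_sq_eq_abs]
  rw [h3, mul_pow, sq_abs]

theorem rowmap_GM (T : Tower) (P : (Fin J → ℝ) →ₗ[ℝ] (Fin J → ℝ)) (s : ℕ)
    (M : Fin (2 ^ T.a) → Fin J → ℝ) : rowmap P (T.GM s M) = T.GM s (rowmap P M) := by
  funext b j
  have h : T.GM s M b = ∑ ν, T.G s b ν • M ν := by
    funext j; simp [Tower.GM, Finset.sum_apply, smul_eq_mul]
  unfold rowmap
  rw [h, map_sum, Finset.sum_apply]
  simp [Tower.GM, smul_eq_mul]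

theorem rowmap_rres_compl {N : ℕ} {P : (Fin J → ℝ) →ₗ[ℝ] (Fin J → ℝ)} {S : Finset (Fin N)}
    {M : Fin N → Fin J → ℝ} (h : ∀ ν ∈ S, P (M ν) = 0) : rowmap P M = rowmap P (rres Sᶜ M) := by
  funext ν j
  unfold rowmap
  by_cases hν : ν ∈ S
  · have h1 : rres Sᶜ M ν = 0 := by
      funext j; simp [rres, hν]
    rw [h ν hν, h1, map_zero]
  · have h1 : rres Sᶜ M ν = M ν := by
      funext j; simp [rres, hν]
    rw [h1]

theorem hs_rres {N : ℕ} (R : Finset (Fin N)) (M : Fin N → Fin J → ℝ) :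
    hs (rres R M) = ∑ ν ∈ R, ∑ j, M ν j ^ 2 := by
  unfold hs rres
  rw [← sum_filter_add_sum_filter_not univ (fun ν => ν ∈ R)]
  have h1 : ∑ ν ∈ univ.filter (fun ν => ¬ ν ∈ R), ∑ j, (if ν ∈ R then M ν j else 0) ^ 2 = 0 := by
    refine sum_eq_zero fun ν hν => ?_
    rw [mem_filter] at hν
    simp [hν.2]
  rw [h1, add_zero]
  have h2 : univ.filter (fun ν => ν ∈ R) = R := by ext; simp
  rw [h2]
  refine sum_congr rfl fun ν hν => ?_
  simp [hν]

theorem abs_rres_le {N : ℕ} (R : Finset (Fin N)) (M : Fin N → Fin J → ℝ) (ν : Fin N) (j : Fin J) :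
    |rres R M ν j| ≤ |M ν j| := by
  unfold rres
  split_ifs with h
  · exact le_rfl
  · simp

theorem sum_hs_Q_le [Fintype ι] (V : ℕ → Submodule ℝ (Fin J → ℝ)) (n : ℕ) (hV : ∀ i < n, V i ≤ V (i + 1))
    (M : ι → Fin J → ℝ) : ∑ i ∈ range n, hs (rowmap (proj (V (i + 1)) - proj (V i)) M) ≤ hs M := by
  unfold hs rowmap
  rw [sum_comm]
  exact sum_le_sum fun b _ => sum_Q_sq_le V n hV (M b)

end rows

/-! ## counting -/

theorem occ_mono {N J : ℕ} (c : ℕ → Fin N → Fin J → ℝ) {s s' : ℕ} (h : s ≤ s') (ν : Fin N) :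
    occ c s ν ≤ occ c s' ν := by
  unfold occ
  refine card_le_card fun j hj => ?_
  simp only [mem_filter, mem_univ, true_and, mem_range] at hj ⊢
  obtain ⟨t, ht, h2⟩ := hj
  exact ⟨t, by omega, h2⟩

theorem card_freq {T : Tower} {J : ℕ} {c : ℕ → Fin (2 ^ T.a) → Fin J → ℝ} {B : ℝ} (hJ : 1 ≤ J)
    (hc : T.Sparse c B) (i : ℕ) (hk : ∀ s ≤ i, T.k s ≤ T.k i) (L : ℕ) :
    (univ.filter (fun ν => J ≤ L * occ c i ν)).card ≤ L * ((i + 1) * T.k i ^ 2) := by
  have h1 : ∑ ν, occ c i ν ≤ J * ((i + 1) * T.k i ^ 2) := by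
    unfold occ
    simp only [card_filter]
    rw [sum_comm]
    have h2 : ∀ j : Fin J, ∑ ν : Fin (2 ^ T.a), (if ∃ s' ∈ range (i + 1), c s' ν j ≠ 0 then 1 else 0) ≤
        (i + 1) * T.k i ^ 2 := by
      intro j
      calc ∑ ν : Fin (2 ^ T.a), (if ∃ s' ∈ range (i + 1), c s' ν j ≠ 0 then 1 else 0)
          ≤ ∑ ν : Fin (2 ^ T.a), ∑ s' ∈ range (i + 1), (if c s' ν j ≠ 0 then 1 else 0) := by
            refine sum_le_sum fun ν _ => ?_
            split_ifs with h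
            · obtain ⟨t, ht, h3⟩ := h
              calc 1 = (if c t ν j ≠ 0 then 1 else 0) := by rw [if_pos h3]
                _ ≤ _ := single_le_sum (f := fun s' => (if c s' ν j ≠ 0 then 1 else 0))
                    (fun _ _ => Nat.zero_le _) ht
            · exact Nat.zero_le _
        _ = ∑ s' ∈ range (i + 1), (univ.filter (fun ν => c s' ν j ≠ 0)).card := by
            rw [sum_comm]
            refine sum_congr rfl fun s' _ => ?_
            rw [card_filter]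
        _ ≤ ∑ s' ∈ range (i + 1), T.k i ^ 2 := by
            refine sum_le_sum fun s' hs' => ?_
            rw [mem_range] at hs'
            exact ((hc s' j).2.1).trans (Nat.pow_le_pow_left (hk s' (by omega)) 2)
        _ = (i + 1) * T.k i ^ 2 := by simp
    calc _ ≤ ∑ j : Fin J, (i + 1) * T.k i ^ 2 := sum_le_sum fun j _ => h2 j
      _ = _ := by simp
  have h3 : J * (univ.filter (fun ν => J ≤ L * occ c i ν)).card ≤ J * (L * ((i + 1) * T.k i ^ 2)) := by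
    calc J * (univ.filter (fun ν => J ≤ L * occ c i ν)).card
        = ∑ ν ∈ univ.filter (fun ν => J ≤ L * occ c i ν), J := by simp [mul_comm]
      _ ≤ ∑ ν ∈ univ.filter (fun ν => J ≤ L * occ c i ν), L * occ c i ν := by
          refine sum_le_sum fun ν hν => ?_
          exact (mem_filter.1 hν).2
      _ ≤ ∑ ν, L * occ c i ν := sum_le_sum_of_subset (subset_univ _)
      _ = L * ∑ ν, occ c i ν := by rw [mul_sum]
      _ ≤ L * (J * ((i + 1) * T.k i ^ 2)) := Nat.mul_le_mul_left _ h1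
      _ = _ := by ring
  exact Nat.le_of_mul_le_mul_left h3 (by omega)

theorem col_l1 {T : Tower} {J : ℕ} {c : ℕ → Fin (2 ^ T.a) → Fin J → ℝ} {B : ℝ} (hB : 0 ≤ B)
    (hc : T.Sparse c B) (s : ℕ) (j : Fin J) : ∑ ν, |c s ν j| ≤ T.k s * B := by
  obtain ⟨-, h1, h2⟩ := hc s j
  have h3 : ∑ ν, |c s ν j| = ∑ ν ∈ univ.filter (fun ν => c s ν j ≠ 0), |c s ν j| := by
    rw [sum_filter]
    refine sum_congr rfl fun ν _ => ?_
    split_ifs with h
    · rfl
    · simp only [not_not] at h; rw [h, abs_zero]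
  have h4 := sq_sum_le_card_mul_sum_sq (s := univ.filter (fun ν => c s ν j ≠ 0)) (f := fun ν => |c s ν j|)
  have h5 : ∑ ν ∈ univ.filter (fun ν => c s ν j ≠ 0), |c s ν j| ^ 2 ≤ B ^ 2 := by
    refine le_trans ?_ h2
    simp only [sq_abs]
    exact sum_le_sum_of_subset_of_nonneg (subset_univ _) fun _ _ _ => by positivity
  have h6 : (((univ.filter (fun ν => c s ν j ≠ 0)).card : ℕ) : ℝ) ≤ (T.k s : ℝ) ^ 2 := by exact_mod_cast h1
  rw [h3]
  have h7 : (∑ ν ∈ univ.filter (fun ν => c s ν j ≠ 0), |c s ν j|) ^ 2 ≤ (T.k s * B) ^ 2 := by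
    refine h4.trans ?_
    rw [mul_pow]
    exact mul_le_mul h6 h5 (by positivity) (by positivity)
  exact le_of_sq_le_sq h7 (by positivity) 

theorem acc_l1 {T : Tower} {J : ℕ} {c : ℕ → Fin (2 ^ T.a) → Fin J → ℝ} {B : ℝ} (hB : 0 ≤ B) (hK : 1 ≤ T.K)
    (hc : T.Sparse c B) (s : ℕ) (hs : s ≤ T.top) (k : ℕ) (hk : ∀ s' ≤ s, T.k s' ≤ k) (j : Fin J) :
    ∑ ν, |T.accJ c s ν j| ≤ (T.top + 1) * (T.K : ℝ) ^ T.top * (k * B) := by
  have hK' : (1 : ℝ) ≤ T.K := by exact_mod_cast hK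
  have h1 : ∀ ν, |T.accJ c s ν j| ≤ ∑ s' ∈ range (s + 1), (T.K : ℝ) ^ T.top * |c s' ν j| := by
    intro ν
    unfold Tower.accJ Tower.acc
    refine (abs_sum_le_sum_abs _ _).trans (sum_le_sum fun s' _ => ?_)
    rw [abs_mul, abs_of_nonneg (by positivity : (0:ℝ) ≤ (T.K : ℝ) ^ (s - s'))]
    exact mul_le_mul_of_nonneg_right (pow_le_pow_right₀ hK' (by omega)) (abs_nonneg _)
  calc ∑ ν, |T.accJ c s ν j| ≤ ∑ ν, ∑ s' ∈ range (s + 1), (T.K : ℝ) ^ T.top * |c s' ν j| :=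
        sum_le_sum fun ν _ => h1 ν
    _ = ∑ s' ∈ range (s + 1), (T.K : ℝ) ^ T.top * ∑ ν, |c s' ν j| := by
        rw [sum_comm]
        exact sum_congr rfl fun s' _ => by rw [mul_sum]
    _ ≤ ∑ s' ∈ range (s + 1), (T.K : ℝ) ^ T.top * (k * B) := by
        refine sum_le_sum fun s' hs' => ?_
        rw [mem_range] at hs'
        refine mul_le_mul_of_nonneg_left ((col_l1 hB hc s' j).trans ?_) (by positivity)
        have : (T.k s' : ℝ) ≤ k := by exact_mod_cast hk s' (by omega)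
        exact mul_le_mul_of_nonneg_right this hB
    _ = ((s : ℝ) + 1) * ((T.K : ℝ) ^ T.top * (k * B)) := by simp
    _ ≤ ((T.top : ℝ) + 1) * ((T.K : ℝ) ^ T.top * (k * B)) := by
        have : (s : ℝ) ≤ T.top := by exact_mod_cast hs
        have h0 : 0 ≤ (T.K : ℝ) ^ T.top * (k * B) := by positivity
        nlinarith
    _ = _ := by ring

theorem acc_row_sq {T : Tower} {J : ℕ} {c : ℕ → Fin (2 ^ T.a) → Fin J → ℝ} (hK : 1 ≤ T.K)
    (s : ℕ) (hs : s ≤ T.top) (t : ℕ) (hst : s ≤ t) (ν : Fin (2 ^ T.a)) :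
    ∑ j, T.accJ c s ν j ^ 2 ≤ (T.top + 1) * (T.K : ℝ) ^ (2 * T.top) *
      ∑ s' ∈ range (t + 1), ∑ j, c s' ν j ^ 2 := by
  have hK' : (1 : ℝ) ≤ T.K := by exact_mod_cast hK
  have h1 : ∀ j, T.accJ c s ν j ^ 2 ≤ (T.top + 1) * (T.K : ℝ) ^ (2 * T.top) *
      ∑ s' ∈ range (s + 1), c s' ν j ^ 2 := by
    intro j
    unfold Tower.accJ Tower.acc
    have h2 := sq_sum_le_card_mul_sum_sq (s := range (s + 1)) (f := fun s' => (T.K : ℝ) ^ (s - s') * c s' ν j)
    refine h2.trans ?_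
    rw [card_range, mul_assoc]
    have h3 : ∑ s' ∈ range (s + 1), ((T.K : ℝ) ^ (s - s') * c s' ν j) ^ 2 ≤
        (T.K : ℝ) ^ (2 * T.top) * ∑ s' ∈ range (s + 1), c s' ν j ^ 2 := by
      rw [mul_sum]
      refine sum_le_sum fun s' _ => ?_
      rw [mul_pow, ← pow_mul]
      exact mul_le_mul_of_nonneg_right (pow_le_pow_right₀ hK' (by omega)) (sq_nonneg _)
    have h4 : ((s + 1 : ℕ) : ℝ) ≤ T.top + 1 := by
      push_cast
      have : (s : ℝ) ≤ T.top := by exact_mod_cast hs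
      linarith
    exact mul_le_mul h4 h3 (by positivity) (by positivity)
  calc ∑ j, T.accJ c s ν j ^ 2 ≤ ∑ j, (T.top + 1) * (T.K : ℝ) ^ (2 * T.top) *
        ∑ s' ∈ range (s + 1), c s' ν j ^ 2 := sum_le_sum fun j _ => h1 j
    _ = (T.top + 1) * (T.K : ℝ) ^ (2 * T.top) * ∑ s' ∈ range (s + 1), ∑ j, c s' ν j ^ 2 := by
        rw [← mul_sum, sum_comm]
    _ ≤ _ := by
        refine mul_le_mul_of_nonneg_left ?_ (by positivity)
        exact sum_le_sum_of_subset_of_nonneg (range_subset_range.2 (by omega)) fun _ _ _ => by positivity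

end Run7.h167.NEG.ZB
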