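import Pool.Agent.Run7.h167.NEG.ZBa

/-!
# Piece ZB, part 2: the frequent rows, the spaces `V_i`, and the decompositions
-/

set_option autoImplicit false

namespace Run7.h167.NEG.ZB

open Finset Module Classical Run7.h35.NEG

/-- the situation of ZB; `d` is the size of the small terms -/
structure Hyp (T : Tower) {J : ℕ} (c : ℕ → Fin (2 ^ T.a) → Fin J → ℝ) (Lo r Hi : ℕ → ℕ)
    (B δ d : ℝ) : Prop where
  J1 : 1 ≤ J
  K1 : 1 ≤ T.K
  B1 : 1 ≤ B
  sp : T.Sparse c B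
  win : Win T c δ Lo r Hi
  lk : Leaks T c Lo Hi δ
  d0 : 0 < d
  δ0 : 0 < δ
  δd : δ ≤ d
  a1 : 1 ≤ T.a
  topa : T.top + 1 ≤ T.a
  big : 64 * (T.K : ℝ) ^ 4 * (((T.top : ℝ) + 1) ^ 2 * (T.K : ℝ) ^ (2 * T.top) * B ^ 2) ≤ d * T.a
  kmono : ∀ s s', s' ≤ s → s ≤ T.top → T.k s' ≤ T.k s
  ka : ∀ s, T.a ≤ T.k s
  nk : ∀ s < T.top, T.k s ^ 30 = T.n s
  nk1 : ∀ s < T.top, T.n s ≤ T.k (s + 1)
  GMb : ∀ s ≤ T.top, ∀ M : Fin (2 ^ T.a) → Fin J → ℝ,
    hs (T.GM s M) ≤ 2 * hs M + T.eta s * ∑ j, (∑ ν, |M ν j|) ^ 2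
  eta : ∀ s, T.eta s * (T.k s : ℝ) ^ 2 ≤ 8 / T.k s

section

variable {T : Tower} {J : ℕ} {c : ℕ → Fin (2 ^ T.a) → Fin J → ℝ} {Lo r Hi : ℕ → ℕ} {B δ d : ℝ}

namespace Hyp

theorem k1 (h : Hyp T c Lo r Hi B δ d) (s : ℕ) : 1 ≤ T.k s := h.a1.trans (h.ka s)

theorem Lo_le_Hi (h : Hyp T c Lo r Hi B δ d) {i : ℕ} (hi : i < T.top) : Lo i ≤ Hi i :=
  ((Nat.le_self_pow (by norm_num) _).trans (h.win.mid i hi)).trans
    ((Nat.le_self_pow (by norm_num) _).trans (h.win.hi i hi))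

theorem k_le_Lo (h : Hyp T c Lo r Hi B δ d) {i : ℕ} (hi : i < T.top) : T.k i ^ 30 ≤ Lo i := by
  rw [h.nk i hi]
  exact (Nat.le_self_pow (by norm_num) _).trans (h.win.lo i hi)

theorem Hi_le_Lo (h : Hyp T c Lo r Hi B δ d) {i : ℕ} (hi : i + 1 < T.top) : Hi i ≤ Lo (i + 1) := by
  refine ((Nat.le_self_pow (by norm_num) _).trans (h.win.up i (by omega))).trans ?_
  exact (Nat.le_self_pow (by norm_num) _).trans (h.k_le_Lo hi)

theorem Lo_mono_succ (h : Hyp T c Lo r Hi B δ d) {i : ℕ} (hi : i + 1 < T.top) : Lo i ≤ Lo (i + 1) :=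
  (h.Lo_le_Hi (by omega)).trans (h.Hi_le_Lo hi)

theorem Sf_mono (h : Hyp T c Lo r Hi B δ d) {i : ℕ} (hi : i < T.top) :
    Sf T c Lo i ⊆ Sf T c Lo (i + 1) := by
  intro ν hν
  unfold Sf at hν ⊢
  rw [if_pos hi] at hν
  split_ifs with h1
  · simp only [mem_filter, mem_univ, true_and] at hν ⊢
    exact hν.trans (Nat.mul_le_mul (h.Lo_mono_succ h1) (occ_mono c (Nat.le_succ i) ν))
  · exact mem_univ _

theorem Sf_mono' (h : Hyp T c Lo r Hi B δ d) {i i' : ℕ} (hii : i ≤ i') (hi : i' ≤ T.top) :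
    Sf T c Lo i ⊆ Sf T c Lo i' := by
  induction i', hii using Nat.le_induction with
  | base => exact Subset.refl _
  | succ m hm ih => exact (ih (by omega)).trans (h.Sf_mono (by omega))

theorem Sf_sub_Sp (h : Hyp T c Lo r Hi B δ d) {i : ℕ} (hi : i < T.top) :
    Sf T c Lo i ⊆ Sp T c Hi i := by
  intro ν hν
  unfold Sf at hν
  rw [if_pos hi] at hν
  unfold Sp
  simp only [mem_filter, mem_univ, true_and] at hν ⊢
  exact hν.trans (Nat.mul_le_mul_right _ (h.Lo_le_Hi hi))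

theorem Sp_sub_Sf (h : Hyp T c Lo r Hi B δ d) {i : ℕ} (hi : i < T.top) :
    Sp T c Hi i ⊆ Sf T c Lo (i + 1) := by
  intro ν hν
  unfold Sp at hν
  unfold Sf
  split_ifs with h1
  · simp only [mem_filter, mem_univ, true_and] at hν ⊢
    exact hν.trans (Nat.mul_le_mul (h.Hi_le_Lo h1) (occ_mono c (Nat.le_succ i) ν))
  · exact mem_univ _

theorem Vf_mono (h : Hyp T c Lo r Hi B δ d) {i : ℕ} (hi : i < T.top) :
    Vf T c Lo i ≤ Vf T c Lo (i + 1) := by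
  unfold Vf
  rw [if_pos hi]
  split_ifs with h1
  · refine Submodule.span_mono ?_
    rintro w ⟨s', hs', ν, hν, rfl⟩
    rw [mem_range] at hs'
    exact ⟨s', mem_range.2 (by omega), ν, h.Sf_mono hi hν, rfl⟩
  · exact le_top

theorem Vf_mono' (h : Hyp T c Lo r Hi B δ d) {i i' : ℕ} (hii : i ≤ i') (hi : i' ≤ T.top) :
    Vf T c Lo i ≤ Vf T c Lo i' := by
  induction i', hii using Nat.le_induction with
  | base => exact le_rfl
  | succ m hm ih => exact (ih (by omega)).trans (h.Vf_mono (by omega))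

end Hyp

theorem row_mem (s i : ℕ) (hsi : s ≤ i) (ν : Fin (2 ^ T.a)) (hν : ν ∈ Sf T c Lo i) :
    T.accJ c s ν ∈ Vf T c Lo i := by
  unfold Vf
  split_ifs with h1
  · have h2 : T.accJ c s ν = ∑ s' ∈ range (s + 1), (T.K : ℝ) ^ (s - s') • c s' ν := by
      funext j
      simp [Tower.accJ, Tower.acc, Finset.sum_apply]
    rw [h2]
    refine Submodule.sum_mem _ fun s' hs' => Submodule.smul_mem _ _ (Submodule.subset_span ?_)
    rw [mem_range] at hs'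
    exact ⟨s', mem_range.2 (by omega), ν, hν, rfl⟩
  · exact Submodule.mem_top

namespace Hyp

theorem Q_of_mem (h : Hyp T c Lo r Hi B δ d) {i : ℕ} (hi : i < T.top) {v : Fin J → ℝ}
    (hv : v ∈ Vf T c Lo i) : Qf T c Lo i v = 0 := by
  unfold Qf
  rw [LinearMap.sub_apply, proj_of_mem hv, proj_of_mem (h.Vf_mono hi hv), sub_self]

theorem Q_of_mem' {i : ℕ} {v : Fin J → ℝ} (hv : v ∈ Vf T c Lo (i + 1)) :
    Qf T c Lo i v = v - proj (Vf T c Lo i) v := by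
  unfold Qf
  rw [LinearMap.sub_apply, proj_of_mem hv]

theorem Q_le (h : Hyp T c Lo r Hi B δ d) {i : ℕ} (hi : i < T.top) (v : Fin J → ℝ) :
    ∑ j, Qf T c Lo i v j ^ 2 ≤ ∑ j, proj (Vf T c Lo (i + 1)) v j ^ 2 :=
  Q_sq_le (h.Vf_mono hi) v

theorem Q_le' (h : Hyp T c Lo r Hi B δ d) {i : ℕ} (hi : i < T.top) (v : Fin J → ℝ) :
    ∑ j, Qf T c Lo i v j ^ 2 ≤ ∑ j, v j ^ 2 := (h.Q_le hi v).trans (proj_norm_le _ v)

theorem sum_hs_Q (h : Hyp T c Lo r Hi B δ d) {ι : Type} [Fintype ι] (M : ι → Fin J → ℝ) :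
    ∑ i ∈ range T.top, hs (rowmap (Qf T c Lo i) M) ≤ hs M :=
  sum_hs_Q_le (Vf T c Lo) T.top (fun _ hi => h.Vf_mono hi) M

end Hyp

/-- the infrequent part of `b_s` -/
noncomputable def ms (T : Tower) {J : ℕ} (c : ℕ → Fin (2 ^ T.a) → Fin J → ℝ) (Lo : ℕ → ℕ) (s : ℕ) :
    Fin (2 ^ T.a) → Fin J → ℝ := rres (Sf T c Lo (s + 1))ᶜ (T.accJ c s)

/-- the buffer part of `b_s` at scale `i` -/
noncomputable def bf (T : Tower) {J : ℕ} (c : ℕ → Fin (2 ^ T.a) → Fin J → ℝ) (Lo Hi : ℕ → ℕ) (s i : ℕ) :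
    Fin (2 ^ T.a) → Fin J → ℝ := rres (Sp T c Hi i \ Sf T c Lo i) (T.accJ c s)

namespace Hyp

/-- levels below `i` -/
theorem low (h : Hyp T c Lo r Hi B δ d) {s i : ℕ} (hs : s < i) (hi : i < T.top) :
    rowmap (Qf T c Lo i) (T.GM s (T.accJ c s)) = rowmap (Qf T c Lo i) (T.GM s (ms T c Lo s)) := by
  rw [rowmap_GM, rowmap_GM]
  congr 1
  refine rowmap_rres_compl fun ν hν => ?_
  exact h.Q_of_mem hi (row_mem s i hs.le ν (h.Sf_mono' (by omega) hi.le hν))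

theorem mid_row (h : Hyp T c Lo r Hi B δ d) {i : ℕ} (hi : i < T.top) (ν : Fin (2 ^ T.a)) (j : Fin J) :
    rowmap (Qf T c Lo i) (T.accJ c i) ν j - Ub T c Lo Hi i ν j =
      rowmap (Qf T c Lo i) (ms T c Lo i) ν j + (rowmap (Qf T c Lo i) (bf T c Lo Hi i i) ν j -
        rowmap (proj (Vf T c Lo i)) (Ub T c Lo Hi i) ν j) := by
  have hz : ∀ P : (Fin J → ℝ) →ₗ[ℝ] (Fin J → ℝ), ∀ M : Fin (2 ^ T.a) → Fin J → ℝ,
      M ν = 0 → rowmap P M ν j = 0 := by
    intro P M hM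
    unfold rowmap
    rw [hM, map_zero, Pi.zero_apply]
  by_cases h1 : ν ∈ Sf T c Lo i
  · have h2 := h.Sf_sub_Sp hi h1
    have h3 := h.Sf_mono hi h1
    have e1 : rowmap (Qf T c Lo i) (T.accJ c i) ν j = 0 := by
      unfold rowmap
      rw [h.Q_of_mem hi (row_mem i i le_rfl ν h1), Pi.zero_apply]
    have e2 : ms T c Lo i ν = 0 := by funext j; simp [ms, rres, h3]
    have e3 : bf T c Lo Hi i i ν = 0 := by funext j; simp [bf, rres, h1]
    have e4 : Ub T c Lo Hi i ν = 0 := by funext j; simp [Ub, rres, h2]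
    rw [e1, hz _ _ e2, hz _ _ e3, hz _ _ e4, e4, Pi.zero_apply]
    ring
  · by_cases h2 : ν ∈ Sp T c Hi i
    · have h3 := h.Sp_sub_Sf hi h2
      have e2 : ms T c Lo i ν = 0 := by funext j; simp [ms, rres, h3]
      have e3 : bf T c Lo Hi i i ν = T.accJ c i ν := by funext j; simp [bf, rres, h1, h2]
      have e4 : Ub T c Lo Hi i ν = 0 := by funext j; simp [Ub, rres, h2]
      have e5 : rowmap (Qf T c Lo i) (bf T c Lo Hi i i) ν j = rowmap (Qf T c Lo i) (T.accJ c i) ν j := by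
        unfold rowmap; rw [e3]
      rw [e5, hz _ _ e2, hz _ _ e4, e4, Pi.zero_apply]
      ring
    · have e3 : bf T c Lo Hi i i ν = 0 := by funext j; simp [bf, rres, h2]
      by_cases h3 : ν ∈ Sf T c Lo (i + 1)
      · have e2 : ms T c Lo i ν = 0 := by funext j; simp [ms, rres, h3]
        have e4 : Ub T c Lo Hi i ν = T.accJ c i ν := by funext j; simp [Ub, rres, h2, h3]
        rw [hz _ _ e2, hz _ _ e3]
        unfold rowmap
        rw [e4, Q_of_mem' (row_mem i (i + 1) (Nat.le_succ i) ν h3), Pi.sub_apply]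
        ring
      · have e4 : Ub T c Lo Hi i ν = 0 := by funext j; simp [Ub, rres, h3]
        have e2 : ms T c Lo i ν = T.accJ c i ν := by funext j; simp [ms, rres, h3]
        have e5 : rowmap (Qf T c Lo i) (ms T c Lo i) ν j = rowmap (Qf T c Lo i) (T.accJ c i) ν j := by
          unfold rowmap; rw [e2]
        rw [e5, hz _ _ e3, hz _ _ e4, e4, Pi.zero_apply]
        ring

/-- contents at `i+1` -/
theorem cont_row (h : Hyp T c Lo r Hi B δ d) {i : ℕ} (hi : i < T.top) (ν : Fin (2 ^ T.a)) (j : Fin J) :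
    rowmap (Qf T c Lo i) (rres (Sf T c Lo (i + 1)) (T.accJ c i)) ν j - Ub T c Lo Hi i ν j =
      rowmap (Qf T c Lo i) (bf T c Lo Hi i i) ν j -
        rowmap (proj (Vf T c Lo i)) (Ub T c Lo Hi i) ν j := by
  have h0 := h.mid_row hi ν j
  have h1 : rowmap (Qf T c Lo i) (T.accJ c i) ν j =
      rowmap (Qf T c Lo i) (rres (Sf T c Lo (i + 1)) (T.accJ c i)) ν j +
        rowmap (Qf T c Lo i) (ms T c Lo i) ν j := by
    rw [← rowmap_add]
    have : (fun b j => rres (Sf T c Lo (i + 1)) (T.accJ c i) b j + ms T c Lo i b j) = T.accJ c i := by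
      funext b j
      unfold ms rres
      by_cases hb : b ∈ Sf T c Lo (i + 1)
      · simp [hb]
      · simp [hb]
    rw [this]
  linarith

/-- the infrequent part at scale `i+1` is the buffer part and a leaking part -/
theorem ms_split (h : Hyp T c Lo r Hi B δ d) {i : ℕ} (hi : i + 1 < T.top) :
    ms T c Lo i = fun ν j => rres (Sp T c Hi (i + 1))ᶜ (T.accJ c i) ν j + bf T c Lo Hi i (i + 1) ν j := by
  funext ν j
  unfold ms bf rres
  by_cases h1 : ν ∈ Sf T c Lo (i + 1)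
  · have h2 := h.Sf_sub_Sp hi h1
    simp [h1, h2]
  · by_cases h2 : ν ∈ Sp T c Hi (i + 1)
    · simp [h1, h2]
    · simp [h1, h2]

theorem ms_top {i : ℕ} (hi : i + 1 = T.top) : ms T c Lo i = fun _ _ => 0 := by
  funext ν j
  have : Sf T c Lo (i + 1) = univ := by
    unfold Sf
    rw [if_neg (by omega)]
  unfold ms rres
  rw [this]
  simp

end Hyp

end

end Run7.h167.NEG.ZB
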