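import Pool.Agent.Run7.h167.NEG.ZBb

/-!
# Piece ZB, part 3: quantitative bounds
-/

set_option autoImplicit false

namespace Run7.h167.NEG.ZB

open Finset Module Classical Run7.h35.NEG

/-- the constant of the mass bounds -/
noncomputable def EE (T : Tower) : ℝ := ((T.top : ℝ) + 1) * (T.K : ℝ) ^ (2 * T.top)

/-- the constant of the `ℓ₁` bounds -/
noncomputable def LL (T : Tower) (B : ℝ) : ℝ := ((T.top : ℝ) + 1) ^ 2 * (T.K : ℝ) ^ (2 * T.top) * B ^ 2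

section

variable {T : Tower} {J : ℕ} {c : ℕ → Fin (2 ^ T.a) → Fin J → ℝ} {Lo r Hi : ℕ → ℕ} {B δ d : ℝ}

namespace Hyp

theorem K1' (h : Hyp T c Lo r Hi B δ d) : (1 : ℝ) ≤ T.K := by exact_mod_cast h.K1

theorem EE1 (h : Hyp T c Lo r Hi B δ d) : 1 ≤ EE T := by
  unfold EE
  have h1 : (1 : ℝ) ≤ (T.K : ℝ) ^ (2 * T.top) := one_le_pow₀ h.K1'
  have h2 : (0 : ℝ) ≤ T.top := Nat.cast_nonneg _
  nlinarith

theorem LL1 (h : Hyp T c Lo r Hi B δ d) : B ^ 2 ≤ LL T B := by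
  unfold LL
  have h1 : (1 : ℝ) ≤ (T.K : ℝ) ^ (2 * T.top) := one_le_pow₀ h.K1'
  have h2 : (0 : ℝ) ≤ T.top := Nat.cast_nonneg _
  have h3 : (1 : ℝ) ≤ ((T.top : ℝ) + 1) ^ 2 := one_le_pow₀ (by linarith)
  have h4 : (1 : ℝ) ≤ ((T.top : ℝ) + 1) ^ 2 * (T.K : ℝ) ^ (2 * T.top) := one_le_mul_of_one_le_of_one_le h3 h1
  nlinarith [sq_nonneg B]

theorem LL0 (h : Hyp T c Lo r Hi B δ d) : 0 ≤ LL T B := (sq_nonneg B).trans h.LL1

theorem J0 (_h : Hyp T c Lo r Hi B δ d) : (0 : ℝ) ≤ J := Nat.cast_nonneg _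

theorem bigk (h : Hyp T c Lo r Hi B δ d) (s : ℕ) : 64 * (T.K : ℝ) ^ 4 * LL T B ≤ d * T.k s := by
  refine h.big.trans (mul_le_mul_of_nonneg_left ?_ h.d0.le)
  exact_mod_cast h.ka s

/-- `8 L / k_s ≤ d` -/
theorem small_k (h : Hyp T c Lo r Hi B δ d) (s : ℕ) : LL T B * (8 / (T.k s : ℝ)) ≤ d := by
  have hk : (0 : ℝ) < T.k s := by exact_mod_cast h.k1 s
  rw [← mul_div_assoc, div_le_iff₀ hk]
  have h1 := h.bigk s
  have h2 : (1 : ℝ) ≤ (T.K : ℝ) ^ 4 := one_le_pow₀ h.K1'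
  have h3 := h.LL0
  nlinarith

theorem col_bound (h : Hyp T c Lo r Hi B δ d) {s' s : ℕ} (hss : s' ≤ s) (hs : s ≤ T.top)
    {M : Fin (2 ^ T.a) → Fin J → ℝ} (hM : ∀ ν j, |M ν j| ≤ |T.accJ c s' ν j|) :
    ∑ j, (∑ ν, |M ν j|) ^ 2 ≤ J * (LL T B * (T.k s : ℝ) ^ 2) := by
  have h1 : ∀ j, (∑ ν, |M ν j|) ^ 2 ≤ LL T B * (T.k s : ℝ) ^ 2 := by
    intro j
    have h2 : ∑ ν, |M ν j| ≤ (T.top + 1) * (T.K : ℝ) ^ T.top * (T.k s * B) := by
      refine (sum_le_sum fun ν _ => hM ν j).trans ?_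
      exact acc_l1 (by linarith [h.B1]) h.K1 h.sp s' (hss.trans hs) (T.k s)
        (fun t ht => h.kmono s t (ht.trans hss) hs) j
    have h3 := pow_le_pow_left₀ (sum_nonneg fun ν _ => abs_nonneg (M ν j)) h2 2
    refine h3.trans (le_of_eq ?_)
    unfold LL
    rw [mul_comm 2 T.top, pow_mul]
    ring
  calc ∑ j, (∑ ν, |M ν j|) ^ 2 ≤ ∑ _j : Fin J, LL T B * (T.k s : ℝ) ^ 2 := sum_le_sum fun j _ => h1 j
    _ = _ := by simp

theorem col_bound_c (h : Hyp T c Lo r Hi B δ d) (s : ℕ) :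
    ∑ j, (∑ ν, |c s ν j|) ^ 2 ≤ J * (LL T B * (T.k s : ℝ) ^ 2) := by
  have h1 : ∀ j, (∑ ν, |c s ν j|) ^ 2 ≤ LL T B * (T.k s : ℝ) ^ 2 := by
    intro j
    have h2 := col_l1 (by linarith [h.B1]) h.sp s j
    have h3 := pow_le_pow_left₀ (sum_nonneg fun ν _ => abs_nonneg (c s ν j)) h2 2
    refine h3.trans ?_
    rw [mul_pow, mul_comm]
    exact mul_le_mul_of_nonneg_right h.LL1 (by positivity)
  calc ∑ j, (∑ ν, |c s ν j|) ^ 2 ≤ ∑ _j : Fin J, LL T B * (T.k s : ℝ) ^ 2 := sum_le_sum fun j _ => h1 j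
    _ = _ := by simp

theorem eta_small (h : Hyp T c Lo r Hi B δ d) (s : ℕ) {X : ℝ} (hX : X ≤ J * (LL T B * (T.k s : ℝ) ^ 2)) :
    T.eta s * X ≤ d * J := by
  have h1 := mul_le_mul_of_nonneg_left hX (T.eta_nonneg s)
  refine h1.trans ?_
  calc T.eta s * (J * (LL T B * (T.k s : ℝ) ^ 2)) = J * (LL T B * (T.eta s * (T.k s : ℝ) ^ 2)) := by ring
    _ ≤ J * (LL T B * (8 / T.k s)) := by
        refine mul_le_mul_of_nonneg_left (mul_le_mul_of_nonneg_left (h.eta s) h.LL0) h.J0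
    _ ≤ J * d := mul_le_mul_of_nonneg_left (h.small_k s) h.J0
    _ = _ := mul_comm _ _

theorem GM_acc (h : Hyp T c Lo r Hi B δ d) {s' s : ℕ} (hss : s' ≤ s) (hs' : s ≤ T.top)
    {M : Fin (2 ^ T.a) → Fin J → ℝ} (hM : ∀ ν j, |M ν j| ≤ |T.accJ c s' ν j|) :
    hs (T.GM s M) ≤ 2 * hs M + d * J := by
  have h1 := h.GMb s hs' M
  have h2 := h.eta_small s (h.col_bound hss hs' hM)
  linarith

theorem GM_c (h : Hyp T c Lo r Hi B δ d) {s : ℕ} (hs' : s ≤ T.top) :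
    hs (T.GM s (c s)) ≤ 2 * hs (c s) + d * J := by
  have h1 := h.GMb s hs' (c s)
  have h2 := h.eta_small s (h.col_bound_c s)
  linarith

/-- mass of the buffers -/
theorem hs_bf (h : Hyp T c Lo r Hi B δ d) {s i : ℕ} (hsi : s ≤ i) (hi : i < T.top) :
    hs (bf T c Lo Hi s i) ≤ EE T * (d * J) := by
  unfold bf
  rw [hs_rres]
  have h1 : Sp T c Hi i \ Sf T c Lo i =
      univ.filter (fun ν => J ≤ Hi i * occ c i ν ∧ Lo i * occ c i ν < J) := by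
    ext ν
    unfold Sp Sf
    rw [if_pos hi]
    simp only [mem_sdiff, mem_filter, mem_univ, true_and, not_le]
  rw [h1]
  have h2 := h.win.mass i hi
  calc ∑ ν ∈ univ.filter (fun ν => J ≤ Hi i * occ c i ν ∧ Lo i * occ c i ν < J), ∑ j, T.accJ c s ν j ^ 2
      ≤ ∑ ν ∈ univ.filter (fun ν => J ≤ Hi i * occ c i ν ∧ Lo i * occ c i ν < J),
          EE T * ∑ s' ∈ range (i + 1), ∑ j, c s' ν j ^ 2 :=
        sum_le_sum fun ν _ => acc_row_sq h.K1 s (hsi.trans hi.le) i hsi ν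
    _ = EE T * ∑ ν ∈ univ.filter (fun ν => J ≤ Hi i * occ c i ν ∧ Lo i * occ c i ν < J),
          ∑ s' ∈ range (i + 1), ∑ j, c s' ν j ^ 2 := by rw [mul_sum]
    _ ≤ EE T * (δ * J) := mul_le_mul_of_nonneg_left h2 (by linarith [h.EE1])
    _ ≤ _ := by
        refine mul_le_mul_of_nonneg_left ?_ (by linarith [h.EE1])
        exact mul_le_mul_of_nonneg_right h.δd h.J0

theorem abs_bf (s i : ℕ) (ν : Fin (2 ^ T.a)) (j : Fin J) : |bf T c Lo Hi s i ν j| ≤ |T.accJ c s ν j| :=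
  abs_rres_le _ _ _ _

theorem abs_ms (s : ℕ) (ν : Fin (2 ^ T.a)) (j : Fin J) : |ms T c Lo s ν j| ≤ |T.accJ c s ν j| :=
  abs_rres_le _ _ _ _

theorem abs_Ub (i : ℕ) (ν : Fin (2 ^ T.a)) (j : Fin J) : |Ub T c Lo Hi i ν j| ≤ |T.accJ c i ν j| :=
  abs_rres_le _ _ _ _

/-- the leak of `ū_i` -/
theorem leak_Ub (h : Hyp T c Lo r Hi B δ d) {i : ℕ} (hi : i < T.top) :
    hs (rowmap (proj (Vf T c Lo i)) (T.GM i (Ub T c Lo Hi i))) ≤ d * J ∧
    hs (rowmap (proj (Vf T c Lo i)) (Ub T c Lo Hi i)) ≤ d * J := by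
  have h1 := h.lk i hi i le_rfl (Sf T c Lo (i + 1) \ Sp T c Hi i) (by
    intro ν hν
    rw [mem_sdiff] at hν
    by_contra hcon
    exact hν.2 (by unfold Sp; simp only [mem_filter, mem_univ, true_and]; omega))
  have h2 : δ * (J : ℝ) ≤ d * J := mul_le_mul_of_nonneg_right h.δd h.J0
  exact ⟨h1.1.trans h2, h1.2.trans h2⟩

/-- the leak of the infrequent part, at scale `i+1` -/
theorem leak_ms (h : Hyp T c Lo r Hi B δ d) {i : ℕ} (hi : i + 1 < T.top) :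
    hs (rowmap (Qf T c Lo i) (T.GM (i + 1) (rres (Sp T c Hi (i + 1))ᶜ (T.accJ c i)))) ≤ d * J ∧
    hs (rowmap (Qf T c Lo i) (rres (Sp T c Hi (i + 1))ᶜ (T.accJ c i))) ≤ d * J := by
  have h1 := h.lk (i + 1) hi i (Nat.le_succ i) ((Sp T c Hi (i + 1))ᶜ) (by
    intro ν hν
    rw [mem_compl] at hν
    by_contra hcon
    exact hν (by unfold Sp; simp only [mem_filter, mem_univ, true_and]; omega))
  have h2 : δ * (J : ℝ) ≤ d * J := mul_le_mul_of_nonneg_right h.δd h.J0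
  exact ⟨((hs_rowmap_le' (h.Q_le (by omega)) _).trans h1.1).trans h2,
    ((hs_rowmap_le' (h.Q_le (by omega)) _).trans h1.2).trans h2⟩

theorem GM_add (s : ℕ) (M M' : Fin (2 ^ T.a) → Fin J → ℝ) (b : Fin (T.n s)) (j : Fin J) :
    T.GM s (fun ν j => M ν j + M' ν j) b j = T.GM s M b j + T.GM s M' b j := by
  unfold Tower.GM
  rw [← sum_add_distrib]
  exact sum_congr rfl fun ν _ => by ring

theorem GM_smul (s : ℕ) (x : ℝ) (M : Fin (2 ^ T.a) → Fin J → ℝ) (b : Fin (T.n s)) (j : Fin J) :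
    T.GM s (fun ν j => x * M ν j) b j = x * T.GM s M b j := by
  unfold Tower.GM
  rw [mul_sum]
  exact sum_congr rfl fun ν _ => by ring

theorem hs_Q_ms (h : Hyp T c Lo r Hi B δ d) {i : ℕ} (hi : i < T.top) :
    hs (rowmap (Qf T c Lo i) (T.GM (i + 1) (ms T c Lo i))) ≤ 8 * EE T * (d * J) ∧
    hs (rowmap (Qf T c Lo i) (ms T c Lo i)) ≤ 4 * EE T * (d * J) := by
  have hE := h.EE1
  have hd : 0 ≤ d * (J : ℝ) := mul_nonneg h.d0.le h.J0
  have hEd : d * (J : ℝ) ≤ EE T * (d * J) := by nlinarith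
  by_cases h1 : i + 1 < T.top
  · rw [h.ms_split h1]
    obtain ⟨h2, h3⟩ := h.leak_ms h1
    constructor
    · have e1 : rowmap (Qf T c Lo i) (T.GM (i + 1) (fun ν j =>
          rres (Sp T c Hi (i + 1))ᶜ (T.accJ c i) ν j + bf T c Lo Hi i (i + 1) ν j)) =
          fun b j => rowmap (Qf T c Lo i) (T.GM (i + 1) (rres (Sp T c Hi (i + 1))ᶜ (T.accJ c i))) b j +
            rowmap (Qf T c Lo i) (T.GM (i + 1) (bf T c Lo Hi i (i + 1))) b j := by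
        funext b j
        rw [← rowmap_add]
        congr 1
        funext b j
        exact GM_add _ _ _ b j
      rw [e1]
      refine (hs_add_le _ _).trans ?_
      have h4 := hs_rowmap_le (h.Q_le' hi) (T.GM (i + 1) (bf T c Lo Hi i (i + 1)))
      have h5 := h.GM_acc (Nat.le_succ i) h1.le (M := bf T c Lo Hi i (i + 1)) (abs_bf i (i + 1))
      have h6 := h.hs_bf (Nat.le_succ i) h1
      linarith
    · have e1 : rowmap (Qf T c Lo i) (fun ν j =>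
          rres (Sp T c Hi (i + 1))ᶜ (T.accJ c i) ν j + bf T c Lo Hi i (i + 1) ν j) =
          fun b j => rowmap (Qf T c Lo i) (rres (Sp T c Hi (i + 1))ᶜ (T.accJ c i)) b j +
            rowmap (Qf T c Lo i) (bf T c Lo Hi i (i + 1)) b j := by
        funext b j
        exact rowmap_add _ _ _ b j
      rw [e1]
      refine (hs_add_le _ _).trans ?_
      have h4 := hs_rowmap_le (h.Q_le' hi) (bf T c Lo Hi i (i + 1))
      have h6 := h.hs_bf (Nat.le_succ i) h1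
      linarith
  · have h2 : i + 1 = T.top := by omega
    have h0 : ∀ P : (Fin J → ℝ) →ₗ[ℝ] (Fin J → ℝ), ∀ (ι : Type) [Fintype ι],
        hs (rowmap P (fun (_ : ι) (_ : Fin J) => (0 : ℝ))) = 0 := by
      intro P ι _
      unfold hs rowmap
      have : P (fun _ => (0 : ℝ)) = 0 := by
        have : (fun _ : Fin J => (0 : ℝ)) = 0 := rfl
        rw [this, map_zero]
      simp [this]
    have h3 : T.GM (i + 1) (fun (_ : Fin (2 ^ T.a)) (_ : Fin J) => (0 : ℝ)) = fun _ _ => 0 := by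
      funext b j; simp [Tower.GM]
    rw [ms_top h2, h3, h0, h0]
    constructor <;> positivity

/-- the mass of the infrequent part -/
theorem hs_ms (h : Hyp T c Lo r Hi B δ d) (s : ℕ) :
    hs (ms T c Lo s) ≤ 2 / (T.K : ℝ) ^ 2 * (usq T c Lo (s + 1) * J + hs (c (s + 1))) := by
  have hK : (0 : ℝ) < T.K := by linarith [h.K1']
  have hJ : (0 : ℝ) < J := by exact_mod_cast h.J1
  have h1 : usq T c Lo (s + 1) * J = ∑ ν ∈ (Sf T c Lo (s + 1))ᶜ, ∑ j, T.accJ c (s + 1) ν j ^ 2 := by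
    unfold usq
    rw [div_mul_cancel₀ _ hJ.ne']
  have h2 : ∀ ν j, (T.K : ℝ) ^ 2 * T.accJ c s ν j ^ 2 ≤
      2 * T.accJ c (s + 1) ν j ^ 2 + 2 * c (s + 1) ν j ^ 2 := by
    intro ν j
    have h3 : T.accJ c (s + 1) ν j = c (s + 1) ν j + T.K * T.accJ c s ν j := by
      unfold Tower.accJ
      rw [T.acc_succ]
    rw [h3]
    nlinarith [sq_nonneg (2 * c (s + 1) ν j + T.K * T.accJ c s ν j)]
  have h3 : (T.K : ℝ) ^ 2 * hs (ms T c Lo s) ≤ 2 * (usq T c Lo (s + 1) * J + hs (c (s + 1))) := by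
    unfold ms
    rw [hs_rres, h1]
    calc (T.K : ℝ) ^ 2 * ∑ ν ∈ (Sf T c Lo (s + 1))ᶜ, ∑ j, T.accJ c s ν j ^ 2
        = ∑ ν ∈ (Sf T c Lo (s + 1))ᶜ, ∑ j, (T.K : ℝ) ^ 2 * T.accJ c s ν j ^ 2 := by
          simp only [mul_sum]
      _ ≤ ∑ ν ∈ (Sf T c Lo (s + 1))ᶜ, ∑ j, (2 * T.accJ c (s + 1) ν j ^ 2 + 2 * c (s + 1) ν j ^ 2) :=
          sum_le_sum fun ν _ => sum_le_sum fun j _ => h2 ν j
      _ = 2 * ∑ ν ∈ (Sf T c Lo (s + 1))ᶜ, ∑ j, T.accJ c (s + 1) ν j ^ 2 +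
          2 * ∑ ν ∈ (Sf T c Lo (s + 1))ᶜ, ∑ j, c (s + 1) ν j ^ 2 := by
          simp only [sum_add_distrib, mul_sum]
      _ ≤ _ := by
          have : ∑ ν ∈ (Sf T c Lo (s + 1))ᶜ, ∑ j, c (s + 1) ν j ^ 2 ≤ hs (c (s + 1)) := by
            unfold hs
            exact sum_le_sum_of_subset_of_nonneg (subset_univ _) fun _ _ _ => by positivity
          linarith
  rw [div_mul_eq_mul_div, le_div_iff₀ (by positivity)]
  linarith

/-! ## dimensions and gaps -/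

theorem kpow (h : Hyp T c Lo r Hi B δ d) (s : ℕ) {m n : ℕ} (hmn : m ≤ n) : T.k s ^ m ≤ T.k s ^ n :=
  Nat.pow_le_pow_right (h.k1 s) hmn

theorem top_k (h : Hyp T c Lo r Hi B δ d) {i : ℕ} (hi : i ≤ T.top) (s : ℕ) : i + 1 ≤ T.k s :=
  le_trans (by omega) (h.topa.trans (h.ka s))

theorem card_Sf (h : Hyp T c Lo r Hi B δ d) {i : ℕ} (hi : i < T.top) :
    (Sf T c Lo i).card ≤ Lo i * ((i + 1) * T.k i ^ 2) := by
  unfold Sf
  rw [if_pos hi]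
  exact card_freq h.J1 h.sp i (fun s hs => h.kmono i s hs hi.le) (Lo i)

theorem dim_Vf (h : Hyp T c Lo r Hi B δ d) {i : ℕ} (hi : i < T.top) :
    finrank ℝ (Vf T c Lo i) ≤ Lo i ^ 2 := by
  have h1 : Vf T c Lo i = Submodule.span ℝ
      (((range (i + 1) ×ˢ Sf T c Lo i).image (fun p => c p.1 p.2) : Finset (Fin J → ℝ)) : Set (Fin J → ℝ)) := by
    unfold Vf
    rw [if_pos hi]
    congr 1
    ext w
    simp only [Set.mem_setOf_eq, coe_image, Set.mem_image, mem_coe, mem_product, Prod.exists]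
    constructor
    · rintro ⟨s', hs', ν, hν, rfl⟩
      exact ⟨s', ν, ⟨hs', hν⟩, rfl⟩
    · rintro ⟨s', ν, ⟨hs', hν⟩, rfl⟩
      exact ⟨s', hs', ν, hν, rfl⟩
  rw [h1]
  refine (finrank_span_finset_le_card _).trans ?_
  refine card_image_le.trans ?_
  rw [card_product, card_range]
  have h2 := h.card_Sf hi
  have h3 := h.top_k hi.le i
  have h4 : (i + 1) * (Lo i * ((i + 1) * T.k i ^ 2)) ≤ Lo i ^ 2 := by
    calc (i + 1) * (Lo i * ((i + 1) * T.k i ^ 2)) ≤ T.k i * (Lo i * (T.k i * T.k i ^ 2)) := by gcongr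
      _ = T.k i ^ 4 * Lo i := by ring
      _ ≤ T.k i ^ 30 * Lo i := Nat.mul_le_mul_right _ (h.kpow i (by norm_num))
      _ ≤ Lo i * Lo i := Nat.mul_le_mul_right _ (h.k_le_Lo hi)
      _ = _ := by ring
  exact (Nat.mul_le_mul_left _ h2).trans h4

theorem card_Sp (h : Hyp T c Lo r Hi B δ d) {i : ℕ} (hi : i < T.top) :
    (Sp T c Hi i).card ≤ T.k (i + 1) := by
  unfold Sp
  refine (card_freq h.J1 h.sp i (fun s hs => h.kmono i s hs hi.le) (Hi i)).trans ?_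
  have h3 := h.top_k hi.le i
  have hkH : T.k i ^ 30 ≤ Hi i := (h.k_le_Lo hi).trans (h.Lo_le_Hi hi)
  have hH1 : 1 ≤ Hi i := (Nat.one_le_pow _ _ (h.k1 i)).trans hkH
  calc Hi i * ((i + 1) * T.k i ^ 2) ≤ Hi i * (T.k i * T.k i ^ 2) := by gcongr
    _ = Hi i * T.k i ^ 3 := by ring
    _ ≤ Hi i * T.k i ^ 30 := Nat.mul_le_mul_left _ (h.kpow i (by norm_num))
    _ ≤ Hi i * Hi i := Nat.mul_le_mul_left _ hkH
    _ = Hi i ^ 2 := by ring
    _ ≤ Hi i ^ 10 := Nat.pow_le_pow_right hH1 (by norm_num)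
    _ ≤ _ := h.win.up i hi

theorem gap (h : Hyp T c Lo r Hi B δ d) {s : ℕ} (hs' : s < T.top) :
    4 * (T.K : ℝ) ^ 4 * (LL T B * ((T.k s : ℝ) ^ 2 * (Lo s : ℝ) ^ 2)) ≤ d * T.k (s + 1) := by
  have h1 := h.bigk s
  have hL := h.LL0
  have h2 : (T.k s) ^ 3 * (Lo s) ^ 2 ≤ T.k (s + 1) := by
    have hLo1 : 1 ≤ Lo s := (Nat.one_le_pow _ _ (h.k1 s)).trans (h.k_le_Lo hs')
    have hr1 : Lo s ≤ r s := (Nat.le_self_pow (by norm_num) _).trans (h.win.mid s hs')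
    calc (T.k s) ^ 3 * (Lo s) ^ 2 ≤ T.k s ^ 30 * Lo s ^ 2 := Nat.mul_le_mul_right _ (h.kpow s (by norm_num))
      _ ≤ Lo s * Lo s ^ 2 := Nat.mul_le_mul_right _ (h.k_le_Lo hs')
      _ = Lo s ^ 3 := by ring
      _ ≤ Lo s ^ 10 := Nat.pow_le_pow_right hLo1 (by norm_num)
      _ ≤ r s := h.win.mid s hs'
      _ ≤ Hi s := (Nat.le_self_pow (by norm_num) _).trans (h.win.hi s hs')
      _ ≤ T.k (s + 1) := (Nat.le_self_pow (by norm_num) _).trans (h.win.up s hs')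
  have h3 : (T.k s : ℝ) ^ 3 * (Lo s : ℝ) ^ 2 ≤ T.k (s + 1) := by exact_mod_cast h2
  calc 4 * (T.K : ℝ) ^ 4 * (LL T B * ((T.k s : ℝ) ^ 2 * (Lo s : ℝ) ^ 2))
      = (4 * (T.K : ℝ) ^ 4 * LL T B) * ((T.k s : ℝ) ^ 2 * (Lo s : ℝ) ^ 2) := by ring
    _ ≤ (d * T.k s) * ((T.k s : ℝ) ^ 2 * (Lo s : ℝ) ^ 2) := by
        refine mul_le_mul_of_nonneg_right ?_ (by positivity)
        have : 0 ≤ (T.K : ℝ) ^ 4 * LL T B := by positivity
        linarith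
    _ = d * ((T.k s : ℝ) ^ 3 * (Lo s : ℝ) ^ 2) := by ring
    _ ≤ _ := mul_le_mul_of_nonneg_left h3 h.d0.le

/-- `ρ(P_V M)² ≤ Lo² J L k²` -/
theorem rho_proj (h : Hyp T c Lo r Hi B δ d) {i : ℕ} (hi : i < T.top) {M : Fin (2 ^ T.a) → Fin J → ℝ} {X : ℝ}
    (hM : ∑ j, (∑ ν, |M ν j|) ^ 2 ≤ J * (LL T B * X)) :
    rho (rowmap (proj (Vf T c Lo i)) M) ^ 2 ≤ (Lo i : ℝ) ^ 2 * (J * (LL T B * X)) := by
  have h1 := rho_proj_sq_le (Vf T c Lo i) M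
  have h2 : ((finrank ℝ (Vf T c Lo i) : ℕ) : ℝ) ≤ (Lo i : ℝ) ^ 2 := by exact_mod_cast h.dim_Vf hi
  refine h1.trans (mul_le_mul h2 hM (by positivity) (by positivity))

/-- the buffer part of `rho` -/
theorem rho_bf (h : Hyp T c Lo r Hi B δ d) {i : ℕ} (hi : i < T.top) :
    rho (rowmap (Qf T c Lo i) (bf T c Lo Hi i i)) ^ 2 ≤ T.k (i + 1) * (EE T * (d * J)) := by
  have h1 := rho_sq_le (rowmap (Qf T c Lo i) (bf T c Lo Hi i i)) (Sp T c Hi i) (by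
    intro ν hν j
    have : bf T c Lo Hi i i ν = 0 := by funext j; simp [bf, rres, hν]
    unfold rowmap
    rw [this, map_zero, Pi.zero_apply])
  have h2 := (hs_rowmap_le (h.Q_le' hi) (bf T c Lo Hi i i)).trans (h.hs_bf le_rfl hi)
  have h3 : (((Sp T c Hi i).card : ℕ) : ℝ) ≤ T.k (i + 1) := by exact_mod_cast h.card_Sp hi
  exact h1.trans (mul_le_mul h3 h2 (hs_nonneg _) (Nat.cast_nonneg _))

theorem rho_Ub (h : Hyp T c Lo r Hi B δ d) {i : ℕ} (hi : i < T.top) :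
    rho (rowmap (proj (Vf T c Lo i)) (Ub T c Lo Hi i)) ^ 2 ≤
      (Lo i : ℝ) ^ 2 * (J * (LL T B * (T.k i : ℝ) ^ 2)) :=
  h.rho_proj hi (h.col_bound le_rfl hi.le (abs_Ub i))

theorem rho_ms (h : Hyp T c Lo r Hi B δ d) {i : ℕ} (hi : i + 1 < T.top) :
    rho (rowmap (Qf T c Lo i) (ms T c Lo i)) ^ 2 ≤
      (Lo (i + 1) : ℝ) ^ 2 * (J * (LL T B * (T.k (i + 1) : ℝ) ^ 2)) := by
  refine le_trans ?_ (h.rho_proj hi (h.col_bound (Nat.le_succ i) hi.le (M := ms T c Lo i) (abs_ms i)))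
  exact pow_le_pow_left₀ (rho_nonneg _) (rho_rowmap_le' (h.Q_le (by omega)) _) 2

theorem rho_c (h : Hyp T c Lo r Hi B δ d) {i s : ℕ} (his : i + 1 ≤ s) (hs' : s < T.top) :
    rho (rowmap (Qf T c Lo i) (c s)) ^ 2 ≤ (Lo s : ℝ) ^ 2 * (J * (LL T B * (T.k s : ℝ) ^ 2)) := by
  refine le_trans ?_ (h.rho_proj hs' (h.col_bound_c s))
  refine pow_le_pow_left₀ (rho_nonneg _) (rho_rowmap_le' (fun v => ?_) _) 2
  refine (h.Q_le (by omega) v).trans ?_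
  have h1 := proj_norm_le (Vf T c Lo (i + 1)) (proj (Vf T c Lo s) v)
  rwa [proj_proj_of_le (h.Vf_mono' his hs'.le)] at h1

end Hyp

end

end Run7.h167.NEG.ZB
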